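import Pool.Agent.Y526.Dom.Basic

/-!
# Graphs with almost equal degrees: independent sets have many neighbours
-/

set_option autoImplicit false

namespace Pool.Agent.Y526.Dom

lemma ncard_nbhd {n : ℕ} (G : SimpleGraph (Fin n)) (J : Finset (Fin n)) :
    {v | ∃ u ∈ J, G.Adj u v}.ncard = (nbhd G J).card := by
  rw [← Set.ncard_coe_finset]
  congr 1
  ext v
  simp [mem_nbhd]

lemma card_le_of_expands {n p q : ℕ} {G : SimpleGraph (Fin n)}
    (h : ∀ J : Finset (Fin n), (∀ u ∈ J, ∀ v ∈ J, ¬ G.Adj u v) →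
      p * J.card ≤ q * {v | ∃ u ∈ J, G.Adj u v}.ncard)
    (J : Finset (Fin n)) (hJ : Disjoint J (nbhd G J)) :
    p * J.card ≤ q * (nbhd G J).card := by
  rw [← ncard_nbhd]
  refine h J (fun u hu v hv huv => ?_)
  exact Finset.disjoint_left.1 hJ hv (mem_nbhd.2 ⟨u, hu, huv⟩)

lemma expands_of_degrees {n p q d e : ℕ} (G H : SimpleGraph (Fin n)) (hHG : H ≤ G) (hd : 0 < d)
    (hpq : p * e ≤ q * d)
    (h : ∀ v, d ≤ {u | H.Adj v u}.ncard ∧ {u | H.Adj v u}.ncard ≤ e) (J : Finset (Fin n)) :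
    p * J.card ≤ q * {v | ∃ u ∈ J, G.Adj u v}.ncard := by
  classical
  have h1 := Finset.card_mul_le_card_mul (s := J) (t := nbhd H J)
    (m := d) (n := e) (fun u v => H.Adj u v) (by
      intro u hu
      refine (h u).1.trans ?_
      rw [← Set.ncard_coe_finset]
      refine Set.ncard_le_ncard ?_ (Set.toFinite _)
      intro v hv
      rw [Finset.mem_coe, Finset.mem_bipartiteAbove]
      exact ⟨mem_nbhd.2 ⟨u, hu, hv⟩, hv⟩) (by
      intro v _
      refine le_trans ?_ (h v).2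
      rw [← Set.ncard_coe_finset]
      refine Set.ncard_le_ncard ?_ (Set.toFinite _)
      intro u hu
      rw [Finset.mem_coe, Finset.mem_bipartiteBelow] at hu
      exact hu.2.symm)
  have h2 : (nbhd H J).card ≤ {v | ∃ u ∈ J, G.Adj u v}.ncard := by
    rw [ncard_nbhd]
    refine Finset.card_le_card ?_
    intro v hv
    obtain ⟨u, hu, huv⟩ := mem_nbhd.1 hv
    exact mem_nbhd.2 ⟨u, hu, hHG huv⟩
  generalize {v | ∃ u ∈ J, G.Adj u v}.ncard = N at h2 ⊢
  generalize (nbhd H J).card = M at h1 h2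
  have h3 : d * (p * J.card) ≤ d * (q * N) := by
    calc d * (p * J.card) = p * (J.card * d) := by ring
      _ ≤ p * (M * e) := Nat.mul_le_mul_left _ h1
      _ = p * e * M := by ring
      _ ≤ q * d * M := Nat.mul_le_mul_right _ hpq
      _ ≤ q * d * N := Nat.mul_le_mul_left _ h2
      _ = d * (q * N) := by ring
  exact Nat.le_of_mul_le_mul_left h3 hd

end Pool.Agent.Y526.Dom
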