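import Mathlib

/-!
# A small set which serves the needs of two systems at the same time
-/

set_option autoImplicit false

namespace Pool.Agent.Y526.Dom

open Finset

section

variable {V N₁ N₂ K₁ K₂ : Type*}

/-- The relation for Hall's theorem. -/
def Rel (s₁ : N₁ → Finset V) (h₁ : N₁ → Finset K₁) (s₂ : N₂ → Finset V) (h₂ : N₂ → Finset K₂)
    (k : ℕ) : N₁ ⊕ (V ⊕ K₂) → V ⊕ (K₁ ⊕ (N₂ ⊕ Fin k)) → Prop
  | Sum.inl t, Sum.inl v => v ∈ s₁ t
  | Sum.inl t, Sum.inr (Sum.inl a) => a ∈ h₁ t
  | Sum.inl _, Sum.inr (Sum.inr (Sum.inl _)) => False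
  | Sum.inr (Sum.inl v), Sum.inl w => v = w
  | Sum.inr (Sum.inl _), Sum.inr (Sum.inl _) => False
  | Sum.inr (Sum.inl v), Sum.inr (Sum.inr (Sum.inl t)) => v ∈ s₂ t
  | Sum.inr (Sum.inr _), Sum.inl _ => False
  | Sum.inr (Sum.inr _), Sum.inr (Sum.inl _) => False
  | Sum.inr (Sum.inr a), Sum.inr (Sum.inr (Sum.inl t)) => a ∈ h₂ t
  | _, Sum.inr (Sum.inr (Sum.inr _)) => True

end

variable {V N₁ N₂ K₁ K₂ : Type*} [Fintype V] [DecidableEq V] [Fintype N₁] [DecidableEq N₁]
  [Fintype N₂] [DecidableEq N₂] [Fintype K₁] [DecidableEq K₁] [Fintype K₂] [DecidableEq K₂]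

/-- The counting inequality behind Hall's condition. -/
lemma needs_le (e E : ℕ) (hE : 0 < E) (heE : e ≤ E)
    (s₁ : N₁ → Finset V) (h₁ : N₁ → Finset K₁) (s₂ : N₂ → Finset V) (h₂ : N₂ → Finset K₂)
    (P₁ : ∀ X : Finset N₁, E * X.card ≤ e * (X.biUnion s₁).card + E * (X.biUnion h₁).card)
    (P₂ : ∀ X : Finset N₂, E * X.card ≤ e * (X.biUnion s₂).card + E * (X.biUnion h₂).card)
    (U : Finset V) (u₁ : ∀ t, s₁ t ⊆ U) (u₂ : ∀ t, s₂ t ⊆ U)
    (X : Finset N₁) (Y : Finset N₂) :
    X.card + Y.card ≤ (X.biUnion s₁ ∩ Y.biUnion s₂).card + (X.biUnion h₁).card +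
      (Y.biUnion h₂).card + e * U.card / E := by
  have a := P₁ X
  have b := P₂ Y
  have c := Finset.card_union_add_card_inter (X.biUnion s₁) (Y.biUnion s₂)
  have d : (X.biUnion s₁ ∪ Y.biUnion s₂).card ≤ U.card := by
    refine Finset.card_le_card ?_
    intro v hv
    rcases mem_union.1 hv with hv | hv
    · obtain ⟨t, -, ht⟩ := mem_biUnion.1 hv
      exact u₁ t ht
    · obtain ⟨t, -, ht⟩ := mem_biUnion.1 hv
      exact u₂ t ht
  have h0 : e * U.card < E * (e * U.card / E + 1) :=
    Nat.lt_mul_div_succ (e * U.card) hE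
  generalize e * U.card / E = w at h0 ⊢
  generalize X.card = x at *
  generalize Y.card = y at *
  generalize (X.biUnion s₁ ∩ Y.biUnion s₂).card = C at *
  generalize (X.biUnion s₁).card = A at *
  generalize (Y.biUnion s₂).card = B at *
  generalize (X.biUnion h₁).card = P at *
  generalize (Y.biUnion h₂).card = Q at *
  generalize U.card = n at *
  by_contra hlt
  push Not at hlt
  have h1 : w + 1 ≤ x + y - (C + P + Q) := by omega
  have h2 : e * n < E * (x + y - (C + P + Q)) :=
    lt_of_lt_of_le h0 (Nat.mul_le_mul_left _ h1)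
  have h3 : A + B ≤ n + C := by omega
  have h4 : e * (A + B) ≤ e * n + E * C := by
    calc e * (A + B) ≤ e * (n + C) := Nat.mul_le_mul_left _ h3
      _ = e * n + e * C := by ring
      _ ≤ e * n + E * C := Nat.add_le_add_left (Nat.mul_le_mul_right _ heE) _
  have h5 : E * (x + y - (C + P + Q)) + E * (C + P + Q) = E * (x + y) := by
    rw [← Nat.mul_add]; congr 1; omega
  nlinarith

/-- A set `D` with `|D| ≤ (e / E) |U|` which serves all needs of both systems, except that some
needs are served by hubs, each hub serving at most one need in each system. -/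
theorem exists_drop_general (e E : ℕ) (hE : 0 < E) (heE : e ≤ E)
    (s₁ : N₁ → Finset V) (h₁ : N₁ → Finset K₁) (s₂ : N₂ → Finset V) (h₂ : N₂ → Finset K₂)
    (P₁ : ∀ X : Finset N₁, E * X.card ≤ e * (X.biUnion s₁).card + E * (X.biUnion h₁).card)
    (P₂ : ∀ X : Finset N₂, E * X.card ≤ e * (X.biUnion s₂).card + E * (X.biUnion h₂).card)
    (U : Finset V) (u₁ : ∀ t, s₁ t ⊆ U) (u₂ : ∀ t, s₂ t ⊆ U)
    (r₁ : N₁ → Finset V) (r₂ : N₂ → Finset V) (w₁ : ∀ t, s₁ t ⊆ r₁ t) (w₂ : ∀ t, s₂ t ⊆ r₂ t)
    (ne₁ : ∀ t, (r₁ t).Nonempty) (ne₂ : ∀ t, (r₂ t).Nonempty) :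
    ∃ D : Finset V, E * D.card ≤ e * U.card ∧
      (∃ g : {t // Disjoint (r₁ t) D} → K₁, (∀ t, g t ∈ h₁ t.1) ∧ Function.Injective g) ∧
      (∃ g : {t // Disjoint (r₂ t) D} → K₂, (∀ t, g t ∈ h₂ t.1) ∧ Function.Injective g) := by
  classical
  set n := Fintype.card K₂ with hn
  set b := e * U.card / E with hb
  have hN₂ : Fintype.card N₂ ≤ n + b := by
    have h := needs_le e E hE heE s₁ h₁ s₂ h₂ P₁ P₂ U u₁ u₂ ∅ univ
    simp only [Finset.biUnion_empty, Finset.card_empty, Finset.empty_inter, zero_add,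
      Finset.card_univ] at h
    rw [← hb] at h
    have : ((univ : Finset N₂).biUnion h₂).card ≤ n := Finset.card_le_univ _
    omega
  let k := n + b - Fintype.card N₂
  have hall := (Fintype.all_card_le_filter_rel_iff_exists_injective (Rel s₁ h₁ s₂ h₂ k)).1 (by
    intro S
    rcases S.eq_empty_or_nonempty with rfl | hS
    · simp
    let X : Finset N₁ := univ.filter (fun t => Sum.inl t ∈ S)
    let Y : Finset V := univ.filter (fun v => Sum.inr (Sum.inl v) ∈ S)
    let Z : Finset K₂ := univ.filter (fun v => Sum.inr (Sum.inr v) ∈ S)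
    let X₂ : Finset N₂ := univ.filter (fun t => Disjoint (s₂ t) Y ∧ Disjoint (h₂ t) Z)
    have hSc : S.card ≤ X.card + (Y.card + Z.card) := by
      have : S ⊆ X.image Sum.inl ∪ ((Y.image (fun v => Sum.inr (Sum.inl v))) ∪
          (Z.image (fun v => Sum.inr (Sum.inr v)))) := by
        intro x hx
        rcases x with t | v | v
        · exact mem_union_left _ (mem_image.2 ⟨t, mem_filter.2 ⟨mem_univ _, hx⟩, rfl⟩)
        · exact mem_union_right _ (mem_union_left _
            (mem_image.2 ⟨v, mem_filter.2 ⟨mem_univ _, hx⟩, rfl⟩))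
        · exact mem_union_right _ (mem_union_right _
            (mem_image.2 ⟨v, mem_filter.2 ⟨mem_univ _, hx⟩, rfl⟩))
      refine (Finset.card_le_card this).trans ((Finset.card_union_le _ _).trans ?_)
      refine Nat.add_le_add Finset.card_image_le ((Finset.card_union_le _ _).trans ?_)
      exact Nat.add_le_add Finset.card_image_le Finset.card_image_le
    -- the right side contains these elements
    let T : Finset (V ⊕ (K₁ ⊕ (N₂ ⊕ Fin k))) :=
      (Y ∪ X.biUnion s₁).disjSum ((X.biUnion h₁).disjSum (X₂ᶜ.disjSum (univ : Finset (Fin k))))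
    have hT : T ⊆ univ.filter (fun y => ∃ x ∈ S, Rel s₁ h₁ s₂ h₂ k x y) := by
      intro y hy
      refine mem_filter.2 ⟨mem_univ _, ?_⟩
      rcases y with v | a | t | i
      · have hv : v ∈ Y ∪ X.biUnion s₁ := by simpa [T] using hy
        rcases mem_union.1 hv with hv | hv
        · exact ⟨_, (mem_filter.1 hv).2, rfl⟩
        · obtain ⟨t, ht, htv⟩ := mem_biUnion.1 hv
          exact ⟨_, (mem_filter.1 ht).2, htv⟩
      · have hv : a ∈ X.biUnion h₁ := by simpa [T] using hy
        obtain ⟨t, ht, htv⟩ := mem_biUnion.1 hv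
        exact ⟨_, (mem_filter.1 ht).2, htv⟩
      · have hv : t ∉ X₂ := by simpa [T] using hy
        have hv' : ¬ (Disjoint (s₂ t) Y ∧ Disjoint (h₂ t) Z) := by
          intro h; exact hv (mem_filter.2 ⟨mem_univ _, h⟩)
        rw [not_and_or] at hv'
        rcases hv' with hv' | hv'
        · obtain ⟨v, hv1, hv2⟩ := Finset.not_disjoint_iff.1 hv'
          exact ⟨_, (mem_filter.1 hv2).2, hv1⟩
        · obtain ⟨v, hv1, hv2⟩ := Finset.not_disjoint_iff.1 hv'
          exact ⟨_, (mem_filter.1 hv2).2, hv1⟩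
      · obtain ⟨x, hx⟩ := hS
        refine ⟨x, hx, ?_⟩
        rcases x with t | v | v <;> trivial
    have hTc : T.card = (Y ∪ X.biUnion s₁).card + ((X.biUnion h₁).card + ((X₂ᶜ).card + k)) := by
      simp [T, Finset.card_disjSum]
    refine le_trans ?_ (Finset.card_le_card hT)
    rw [hTc]
    refine hSc.trans ?_
    have key := needs_le e E hE heE s₁ h₁ s₂ h₂ P₁ P₂ U u₁ u₂ X X₂
    rw [← hb] at key
    have c1 : X₂ᶜ.card = Fintype.card N₂ - X₂.card := Finset.card_compl X₂
    have c2 : X₂.card ≤ Fintype.card N₂ := Finset.card_le_univ _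
    have c3 : Z.card + (X₂.biUnion h₂).card ≤ n := by
      rw [← Finset.card_union_of_disjoint]
      · exact Finset.card_le_univ _
      · rw [Finset.disjoint_right]
        intro v hv
        obtain ⟨t, ht, htv⟩ := mem_biUnion.1 hv
        exact Finset.disjoint_left.1 (mem_filter.1 ht).2.2 htv
    have c4 : Y.card + (X.biUnion s₁ ∩ X₂.biUnion s₂).card ≤ (Y ∪ X.biUnion s₁).card := by
      rw [← Finset.card_union_of_disjoint]
      · refine Finset.card_le_card ?_
        intro v hv
        rcases mem_union.1 hv with hv | hv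
        · exact mem_union_left _ hv
        · exact mem_union_right _ (mem_inter.1 hv).1
      · rw [Finset.disjoint_right]
        intro v hv
        obtain ⟨t, ht, htv⟩ := mem_biUnion.1 (mem_inter.1 hv).2
        exact Finset.disjoint_left.1 (mem_filter.1 ht).2.1 htv
    omega)
  obtain ⟨f, hf, hr⟩ := hall
  choose c₁ hc₁ using ne₁
  choose c₂ hc₂ using ne₂
  let D₀ : Finset V := univ.filter (fun v => f (Sum.inr (Sum.inl v)) ≠ Sum.inl v)
  let U₁ : Finset N₁ := univ.filter (fun t => ∃ i : Fin k, f (Sum.inl t) = Sum.inr (Sum.inr (Sum.inr i)))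
  let U₂ : Finset N₂ := univ.filter (fun t => ¬ ∃ x, f x = Sum.inr (Sum.inr (Sum.inl t)))
  have hcount : D₀.card + U₁.card + U₂.card ≤ b := by
    let L' : Finset (N₁ ⊕ (V ⊕ K₂)) := U₁.disjSum (D₀.disjSum (univ : Finset K₂))
    have hL' : L'.card = U₁.card + (D₀.card + n) := by
      simp [L', Finset.card_disjSum, hn]
    have himg : (L'.image f) ⊆ (∅ : Finset V).disjSum
        ((∅ : Finset K₁).disjSum (U₂ᶜ.disjSum (univ : Finset (Fin k)))) := by
      intro y hy
      obtain ⟨x, hx, rfl⟩ := mem_image.1 hy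
      have hrx := hr x
      rcases x with t | v | v
      · have ht : t ∈ U₁ := by simpa [L'] using hx
        obtain ⟨i, hi⟩ := (mem_filter.1 ht).2
        rw [hi]; simp
      · have hv : v ∈ D₀ := by simpa [L'] using hx
        have hv' := (mem_filter.1 hv).2
        rcases hfx : f (Sum.inr (Sum.inl v)) with w | a | t | i
        · rw [hfx] at hrx
          have hvw : v = w := hrx
          rw [← hvw] at hfx
          exact absurd hfx hv'
        · rw [hfx] at hrx
          exact absurd hrx id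
        · have : t ∉ U₂ := fun h => (mem_filter.1 h).2 ⟨_, hfx⟩
          simp [this]
        · simp
      · rcases hfx : f (Sum.inr (Sum.inr v)) with w | a | t | i
        · rw [hfx] at hrx
          exact absurd hrx id
        · rw [hfx] at hrx
          exact absurd hrx id
        · have : t ∉ U₂ := fun h => (mem_filter.1 h).2 ⟨_, hfx⟩
          simp [this]
        · simp
    have h1 := Finset.card_le_card himg
    rw [Finset.card_image_of_injective _ hf, hL'] at h1
    simp only [Finset.card_disjSum, Finset.card_empty, zero_add, Finset.card_univ,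
      Fintype.card_fin] at h1
    have c1 : U₂ᶜ.card = Fintype.card N₂ - U₂.card := Finset.card_compl U₂
    have c2 : U₂.card ≤ Fintype.card N₂ := Finset.card_le_univ _
    omega
  let D := D₀ ∪ (U₁.image c₁ ∪ U₂.image c₂)
  have hD : E * D.card ≤ e * U.card := by
    have h1 : D.card ≤ b := by
      refine (Finset.card_union_le _ _).trans ?_
      have h2 := Finset.card_union_le (U₁.image c₁) (U₂.image c₂)
      have h3 : (U₁.image c₁).card ≤ U₁.card := Finset.card_image_le
      have h4 : (U₂.image c₂).card ≤ U₂.card := Finset.card_image_le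
      omega
    calc E * D.card ≤ E * b := Nat.mul_le_mul_left _ h1
      _ ≤ e * U.card := Nat.mul_div_le _ _
  refine ⟨D, hD, ?_, ?_⟩
  · have main : ∀ t, Disjoint (r₁ t) D → ∃ a ∈ h₁ t, f (Sum.inl t) = Sum.inr (Sum.inl a) := by
      intro t ht
      have hrt := hr (Sum.inl t)
      rcases hft : f (Sum.inl t) with v | a | t' | i
      · exfalso
        rw [hft] at hrt
        have hv : v ∈ s₁ t := hrt
        have hvD : v ∈ D₀ := by
          refine mem_filter.2 ⟨mem_univ _, fun h => ?_⟩
          have := hf (h.trans hft.symm)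
          exact absurd this (by simp)
        exact Finset.disjoint_left.1 ht (w₁ t hv) (mem_union_left _ hvD)
      · rw [hft] at hrt
        exact ⟨a, hrt, rfl⟩
      · rw [hft] at hrt
        exact absurd hrt id
      · exfalso
        have htU : t ∈ U₁ := mem_filter.2 ⟨mem_univ _, i, hft⟩
        exact Finset.disjoint_left.1 ht (hc₁ t)
          (mem_union_right _ (mem_union_left _ (mem_image_of_mem _ htU)))
    refine ⟨fun t => (main t.1 t.2).choose, fun t => (main t.1 t.2).choose_spec.1, ?_⟩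
    intro t t' h
    have e1 := (main t.1 t.2).choose_spec.2
    have e2 := (main t'.1 t'.2).choose_spec.2
    simp only at h
    rw [h] at e1
    exact Subtype.ext (Sum.inl_injective (hf (e1.trans e2.symm)))
  · have main : ∀ t, Disjoint (r₂ t) D → ∃ a ∈ h₂ t,
        f (Sum.inr (Sum.inr a)) = Sum.inr (Sum.inr (Sum.inl t)) := by
      intro t ht
      have htU : t ∉ U₂ := by
        intro h
        exact Finset.disjoint_left.1 ht (hc₂ t)
          (mem_union_right _ (mem_union_right _ (mem_image_of_mem _ h)))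
      have hex : ∃ x, f x = Sum.inr (Sum.inr (Sum.inl t)) := by
        by_contra h
        exact htU (mem_filter.2 ⟨mem_univ _, h⟩)
      obtain ⟨x, hx⟩ := hex
      have hrx := hr x
      rcases x with t' | v | a
      · rw [hx] at hrx
        exact absurd hrx id
      · exfalso
        rw [hx] at hrx
        have hv : v ∈ s₂ t := hrx
        have hvD : v ∈ D₀ := mem_filter.2 ⟨mem_univ _, by rw [hx]; simp⟩
        exact Finset.disjoint_left.1 ht (w₂ t hv) (mem_union_left _ hvD)
      · rw [hx] at hrx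
        exact ⟨a, hrx, hx⟩
    refine ⟨fun t => (main t.1 t.2).choose, fun t => (main t.1 t.2).choose_spec.1, ?_⟩
    intro t t' h
    have e1 := (main t.1 t.2).choose_spec.2
    have e2 := (main t'.1 t'.2).choose_spec.2
    simp only at h
    rw [h] at e1
    have := e1.symm.trans e2
    exact Subtype.ext (by simpa using this)

/-- The case of `exists_drop_general` in which `U` is everything. -/
theorem exists_drop (e E : ℕ) (hE : 0 < E) (heE : e ≤ E)
    (s₁ h₁ : N₁ → Finset V) (s₂ h₂ : N₂ → Finset V)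
    (P₁ : ∀ X : Finset N₁, E * X.card ≤ e * (X.biUnion s₁).card + E * (X.biUnion h₁).card)
    (P₂ : ∀ X : Finset N₂, E * X.card ≤ e * (X.biUnion s₂).card + E * (X.biUnion h₂).card)
    (ne₁ : ∀ t, (s₁ t).Nonempty) (ne₂ : ∀ t, (s₂ t).Nonempty) :
    ∃ D : Finset V, E * D.card ≤ e * Fintype.card V ∧
      (∃ g : N₁ → V, (∀ t, Disjoint (s₁ t) D → g t ∈ h₁ t) ∧
        ∀ t t', Disjoint (s₁ t) D → Disjoint (s₁ t') D → g t = g t' → t = t') ∧
      (∃ g : N₂ → V, (∀ t, Disjoint (s₂ t) D → g t ∈ h₂ t) ∧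
        ∀ t t', Disjoint (s₂ t) D → Disjoint (s₂ t') D → g t = g t' → t = t') := by
  classical
  obtain ⟨D, hD, ⟨g₁, a₁, b₁⟩, ⟨g₂, a₂, b₂⟩⟩ := exists_drop_general e E hE heE s₁ h₁ s₂ h₂ P₁ P₂
    univ (fun _ => subset_univ _)
    (fun _ => subset_univ _) s₁ s₂ (fun _ => subset_rfl) (fun _ => subset_rfl) ne₁ ne₂
  refine ⟨D, hD, ⟨fun t => if h : Disjoint (s₁ t) D then g₁ ⟨t, h⟩ else (ne₁ t).choose, ?_, ?_⟩,
    ⟨fun t => if h : Disjoint (s₂ t) D then g₂ ⟨t, h⟩ else (ne₂ t).choose, ?_, ?_⟩⟩
  · intro t ht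
    simp only [dif_pos ht]
    exact a₁ ⟨t, ht⟩
  · intro t t' ht ht' h
    simp only [dif_pos ht, dif_pos ht'] at h
    exact congrArg Subtype.val (b₁ h)
  · intro t ht
    simp only [dif_pos ht]
    exact a₂ ⟨t, ht⟩
  · intro t t' ht ht' h
    simp only [dif_pos ht, dif_pos ht'] at h
    exact congrArg Subtype.val (b₂ h)

end Pool.Agent.Y526.Dom
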