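import Pool.Agent.Y526.Dom.Basic

/-!
# A matching of hubs and leaves which covers all hubs and given leaves
-/

set_option autoImplicit false

namespace Pool.Agent.Y526.Dom

open Finset

variable {V : Type*} [Fintype V] [DecidableEq V]

/-- If the hubs `A` can be matched into the leaves `I` and the leaves in `Q` can be matched into
`A`, then some matching covers all of `A` and `Q`. -/
theorem exists_cover_matching (G : SimpleGraph V) (I A Q : Finset V) (hIA : Disjoint I A)
    (μ : V → V) (hμ : ∀ a ∈ A, μ a ∈ I ∧ G.Adj a (μ a)) (hμi : Set.InjOn μ (A : Set V))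
    (hQ : Q ⊆ I) (g : V → V) (hg : ∀ v ∈ Q, g v ∈ A ∧ G.Adj v (g v))
    (hgi : Set.InjOn g (Q : Set V)) :
    ∃ m : V → V, (∀ v, m (m v) = v) ∧ (∀ v, v ∉ I → v ∉ A → m v = v) ∧
      (∀ v, m v ≠ v → G.Adj v (m v)) ∧ (∀ a ∈ A, m a ≠ a) ∧ (∀ v ∈ Q, m v ≠ v) := by
  classical
  have hAI : A.card ≤ I.card := by
    rw [← Finset.card_image_of_injOn hμi]
    refine Finset.card_le_card ?_
    intro v hv
    obtain ⟨a, ha, rfl⟩ := Finset.mem_image.1 hv
    exact (hμ a ha).1
  let k := I.card - A.card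
  let t : {x // x ∈ A} ⊕ Fin k → Finset V := Sum.elim (fun a => nbhd G {a.1} ∩ I) (fun _ => I \ Q)
  have hall := (Finset.all_card_le_biUnion_card_iff_exists_injective t).1 (by
    intro s
    -- the hubs in `s`
    let sA : Finset V := univ.filter (fun a => ∃ h : a ∈ A, (Sum.inl ⟨a, h⟩ : {x // x ∈ A} ⊕ Fin k) ∈ s)
    have hsA : sA ⊆ A := by
      intro a ha
      obtain ⟨h, -⟩ := (Finset.mem_filter.1 ha).2
      exact h
    by_cases hd : ∃ i : Fin k, (Sum.inr i : {x // x ∈ A} ⊕ Fin k) ∈ s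
    · obtain ⟨i, hi⟩ := hd
      have h1 : s.card ≤ sA.card + k := by
        have : s ⊆ (sA.attach.image (fun a => (Sum.inl ⟨a.1, hsA a.2⟩ : {x // x ∈ A} ⊕ Fin k))) ∪
            (univ.image (fun i : Fin k => (Sum.inr i : {x // x ∈ A} ⊕ Fin k))) := by
          intro x hx
          rcases x with ⟨a, ha⟩ | j
          · refine mem_union_left _ (Finset.mem_image.2 ⟨⟨a, ?_⟩, mem_attach _ _, rfl⟩)
            exact Finset.mem_filter.2 ⟨mem_univ _, ha, hx⟩
          · exact mem_union_right _ (Finset.mem_image.2 ⟨j, mem_univ _, rfl⟩)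
        refine (Finset.card_le_card this).trans ((Finset.card_union_le _ _).trans ?_)
        refine Nat.add_le_add ?_ ?_
        · exact Finset.card_image_le.trans (by simp)
        · exact Finset.card_image_le.trans (by simp)
      -- the leaves that are reached
      have h2 : (I \ (Q \ nbhd G sA)) ⊆ s.biUnion t := by
        intro v hv
        rw [mem_sdiff, mem_sdiff, not_and, not_not] at hv
        by_cases hvQ : v ∈ Q
        · obtain ⟨u, hu, huv⟩ := mem_nbhd.1 (hv.2 hvQ)
          obtain ⟨h, hus⟩ := (Finset.mem_filter.1 hu).2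
          refine mem_biUnion.2 ⟨_, hus, ?_⟩
          simp only [t, Sum.elim_inl, mem_inter]
          exact ⟨mem_nbhd.2 ⟨u, mem_singleton_self _, huv⟩, hv.1⟩
        · refine mem_biUnion.2 ⟨_, hi, ?_⟩
          simp only [t, Sum.elim_inr, mem_sdiff]
          exact ⟨hv.1, hvQ⟩
      have h3 : (Q \ nbhd G sA).card ≤ (A \ sA).card := by
        rw [← Finset.card_image_of_injOn (s := Q \ nbhd G sA) (f := g)
          (hgi.mono (by intro v hv; exact (mem_sdiff.1 hv).1))]
        refine Finset.card_le_card ?_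
        intro a ha
        obtain ⟨v, hv, rfl⟩ := Finset.mem_image.1 ha
        rw [mem_sdiff] at hv
        refine mem_sdiff.2 ⟨(hg v hv.1).1, fun h => hv.2 (mem_nbhd.2 ⟨g v, h, (hg v hv.1).2.symm⟩)⟩
      have h4 : (A \ sA).card = A.card - sA.card := Finset.card_sdiff_of_subset hsA
      have h5 : (I \ (Q \ nbhd G sA)).card = I.card - (Q \ nbhd G sA).card :=
        Finset.card_sdiff_of_subset (sdiff_subset.trans hQ)
      have h6 := Finset.card_le_card h2
      have h7 := Finset.card_le_card hsA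
      have h8 : (Q \ nbhd G sA).card ≤ I.card := Finset.card_le_card (sdiff_subset.trans hQ)
      omega
    · push Not at hd
      have h1 : s.card ≤ sA.card := by
        have : s ⊆ (sA.attach.image (fun a => (Sum.inl ⟨a.1, hsA a.2⟩ : {x // x ∈ A} ⊕ Fin k))) := by
          intro x hx
          rcases x with ⟨a, ha⟩ | j
          · refine (Finset.mem_image.2 ⟨⟨a, ?_⟩, mem_attach _ _, rfl⟩)
            exact Finset.mem_filter.2 ⟨mem_univ _, ha, hx⟩
          · exact absurd hx (hd j)
        refine (Finset.card_le_card this).trans ?_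
        exact Finset.card_image_le.trans (by simp)
      refine h1.trans ?_
      rw [← Finset.card_image_of_injOn (s := sA) (f := μ) (hμi.mono (by intro v hv; exact hsA hv))]
      refine Finset.card_le_card ?_
      intro v hv
      obtain ⟨a, ha, rfl⟩ := Finset.mem_image.1 hv
      obtain ⟨h, has⟩ := (Finset.mem_filter.1 ha).2
      refine mem_biUnion.2 ⟨_, has, ?_⟩
      simp only [t, Sum.elim_inl, mem_inter]
      exact ⟨mem_nbhd.2 ⟨a, mem_singleton_self _, (hμ a h).2⟩, (hμ a h).1⟩)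
  obtain ⟨f, hf, hft⟩ := hall
  have hfI : ∀ x, f x ∈ I := by
    intro x
    have := hft x
    rcases x with a | j
    · exact (mem_inter.1 this).2
    · exact (mem_sdiff.1 this).1
  have hfA : ∀ a : {x // x ∈ A}, G.Adj a.1 (f (Sum.inl a)) := by
    intro a
    have := (mem_inter.1 (hft (Sum.inl a))).1
    obtain ⟨u, hu, huv⟩ := mem_nbhd.1 this
    rw [mem_singleton] at hu
    exact hu ▸ huv
  -- every leaf is reached
  have hsurj : ∀ v ∈ I, ∃ x, f x = v := by
    have hc : (univ.image f).card = I.card := by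
      rw [Finset.card_image_of_injective _ hf, Finset.card_univ, Fintype.card_sum,
        Fintype.card_coe, Fintype.card_fin]
      omega
    have hsub : univ.image f ⊆ I := by
      intro v hv
      obtain ⟨x, -, rfl⟩ := Finset.mem_image.1 hv
      exact hfI x
    have heq := Finset.eq_of_subset_of_card_le hsub hc.ge
    intro v hv
    rw [← heq] at hv
    obtain ⟨x, -, hx⟩ := Finset.mem_image.1 hv
    exact ⟨x, hx⟩
  -- the partner of a leaf
  let m : V → V := fun v =>
    if h : v ∈ A then f (Sum.inl ⟨v, h⟩)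
    else if h : ∃ a : {x // x ∈ A}, f (Sum.inl a) = v then (h.choose).1 else v
  have mA : ∀ (a : V) (h : a ∈ A), m a = f (Sum.inl ⟨a, h⟩) := fun a h => by simp [m, h]
  have mI : ∀ (a : V) (h : a ∈ A), m (f (Sum.inl ⟨a, h⟩)) = a := by
    intro a h
    have hn : f (Sum.inl ⟨a, h⟩) ∉ A := Finset.disjoint_left.1 hIA (hfI _)
    have hex : ∃ b : {x // x ∈ A}, f (Sum.inl b) = f (Sum.inl ⟨a, h⟩) := ⟨⟨a, h⟩, rfl⟩
    have hch := hex.choose_spec
    have := Sum.inl_injective (hf hch)
    simp only [m, dif_neg hn, dif_pos hex]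
    rw [this]
  have mN : ∀ v, v ∉ A → (¬ ∃ a : {x // x ∈ A}, f (Sum.inl a) = v) → m v = v := by
    intro v h h'
    simp only [m, dif_neg h, dif_neg h']
  have hcases : ∀ v, (∃ h : v ∈ A, m v = f (Sum.inl ⟨v, h⟩)) ∨
      (∃ (a : V) (h : a ∈ A), v = f (Sum.inl ⟨a, h⟩) ∧ m v = a) ∨ (m v = v ∧ v ∉ A ∧
        ¬ ∃ a : {x // x ∈ A}, f (Sum.inl a) = v) := by
    intro v
    by_cases h : v ∈ A
    · exact Or.inl ⟨h, mA v h⟩
    · by_cases h' : ∃ a : {x // x ∈ A}, f (Sum.inl a) = v
      · obtain ⟨⟨a, ha⟩, hav⟩ := h'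
        exact Or.inr (Or.inl ⟨a, ha, hav.symm, by rw [← hav]; exact mI a ha⟩)
      · exact Or.inr (Or.inr ⟨mN v h h', h, h'⟩)
  refine ⟨m, ?_, ?_, ?_, ?_, ?_⟩
  · intro v
    rcases hcases v with ⟨h, hv⟩ | ⟨a, h, hv, hm⟩ | ⟨hv, -⟩
    · rw [hv, mI v h]
    · rw [hm, mA a h, ← hv]
    · rw [hv, hv]
  · intro v hI hA
    refine mN v hA ?_
    rintro ⟨a, ha⟩
    exact hI (ha ▸ hfI _)
  · intro v hv
    rcases hcases v with ⟨h, hv'⟩ | ⟨a, h, hv', hm⟩ | ⟨hv', -⟩
    · rw [hv']; exact hfA ⟨v, h⟩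
    · rw [hm]
      have := (hfA ⟨a, h⟩).symm
      rwa [← hv'] at this
    · exact absurd hv' hv
  · intro a ha h
    rw [mA a ha] at h
    exact Finset.disjoint_left.1 hIA (hfI (Sum.inl ⟨a, ha⟩)) ((congrArg (· ∈ A) h).mpr ha)
  · intro v hv h
    obtain ⟨x, hx⟩ := hsurj v (hQ hv)
    rcases x with ⟨a, ha⟩ | j
    · have : m v = a := by rw [← hx]; exact mI a ha
      rw [h] at this
      exact Finset.disjoint_left.1 hIA (hQ hv) (this ▸ ha)
    · have := hft (Sum.inr j)
      rw [hx] at this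
      exact (mem_sdiff.1 this).2 hv

end Pool.Agent.Y526.Dom
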