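import Mathlib

/-!
# Pairing consecutive elements of the cycles of a permutation
-/

set_option autoImplicit false

namespace Pool.Agent.Y526.Dom

open Finset Equiv.Perm

variable {V : Type*} [Fintype V] [DecidableEq V]

/-- A permutation that moves along the edges of a graph has disjoint blocks (its odd cycles of
length at least five) such that for every set `D` meeting all blocks there is a matching which
covers all moved points, except for points in `D` and points with an edge of the matching between
two of their neighbours. -/
theorem exists_pairing (G : SimpleGraph V) (σ : Equiv.Perm V) (R : Finset V)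
    (hR : ∀ v, v ∈ R ↔ σ v ≠ v) (hσ : ∀ v ∈ R, G.Adj v (σ v)) :
    ∃ B : Finset (Finset V), (∀ b ∈ B, b ⊆ R ∧ 5 ≤ b.card) ∧
      (∀ b ∈ B, ∀ c ∈ B, b ≠ c → Disjoint b c) ∧
      ∀ D : Finset V, (∀ b ∈ B, (b ∩ D).Nonempty) → ∃ m : V → V, (∀ v, m (m v) = v) ∧
        (∀ v, v ∉ R → m v = v) ∧ (∀ v, m v ≠ v → G.Adj v (m v)) ∧
        (∀ v ∈ R, m v = v → v ∈ D ∨ ∃ u w, m u = w ∧ u ≠ w ∧ G.Adj v u ∧ G.Adj v w) ∧
        (∀ v ∈ R, m v = v → ∃ u, m u ≠ u ∧ G.Adj v u) := by
  classical
  let orb : V → Finset V := fun v => (σ.cycleOf v).support
  have horb : ∀ v w, w ∈ orb v ↔ SameCycle σ v w ∧ v ∈ R := by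
    intro v w
    show w ∈ (σ.cycleOf v).support ↔ _
    rw [mem_support_cycleOf_iff, hR, mem_support]
  have hself : ∀ v ∈ R, v ∈ orb v := fun v hv => (horb v v).2 ⟨SameCycle.refl _ _, hv⟩
  have hsame : ∀ v w, SameCycle σ v w → orb v = orb w := by
    intro v w h
    simp only [orb, SameCycle.cycleOf_eq h]
  have horbR : ∀ v w, w ∈ orb v → w ∈ R := by
    intro v w h
    have h' := ((horb v w).1 h)
    rw [hR, ← mem_support]
    exact (SameCycle.mem_support_iff h'.1).1 (mem_support.2 ((hR v).1 h'.2))
  have horbeq : ∀ v w, w ∈ orb v → orb w = orb v := fun v w h => (hsame v w ((horb v w).1 h).1).symm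
  refine ⟨(univ.image orb).filter (fun b => 5 ≤ b.card ∧ Odd b.card), ?_, ?_, ?_⟩
  · intro b hb
    obtain ⟨hb1, hb2, -⟩ := mem_filter.1 hb
    obtain ⟨v, -, rfl⟩ := mem_image.1 hb1
    exact ⟨fun w hw => horbR v w hw, hb2⟩
  · intro b hb c hc hbc
    obtain ⟨v, -, rfl⟩ := mem_image.1 (mem_filter.1 hb).1
    obtain ⟨w, -, rfl⟩ := mem_image.1 (mem_filter.1 hc).1
    rw [Finset.disjoint_left]
    intro x hx hx'
    exact hbc ((horbeq v x hx).symm.trans (horbeq w x hx'))
  · intro D hD
    let base : V → V := fun v => if h : (orb v ∩ D).Nonempty then h.choose else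
      if h' : (orb v).Nonempty then h'.choose else v
    have hbase1 : ∀ v ∈ R, base v ∈ orb v := by
      intro v hv
      by_cases h : (orb v ∩ D).Nonempty
      · simp only [base, dif_pos h]
        exact (mem_inter.1 h.choose_spec).1
      · have h' : (orb v).Nonempty := ⟨v, hself v hv⟩
        simp only [base, dif_neg h, dif_pos h']
        exact h'.choose_spec
    have hbase2 : ∀ v, (orb v ∩ D).Nonempty → base v ∈ D := by
      intro v h
      simp only [base, dif_pos h]
      exact (mem_inter.1 h.choose_spec).2
    have hbase3 : ∀ v w, v ∈ R → w ∈ orb v → base w = base v := by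
      intro v w hv hw
      have h := horbeq v w hw
      have h' : (orb v).Nonempty := ⟨v, hself v hv⟩
      have h'' : (orb w).Nonempty := h ▸ h'
      simp only [base, h, dif_pos h']
    have hex : ∀ v ∈ R, ∃ i, i < (orb v).card ∧ (σ ^ i) (base v) = v := by
      intro v hv
      have hc : σ.IsCycleOn (orb v : Set V) := isCycleOn_support_cycleOf σ v
      exact hc.exists_pow_eq (hbase1 v hv) (hself v hv)
    let idx : V → ℕ := fun v => if h : v ∈ R then (hex v h).choose else 0
    have hidx1 : ∀ v ∈ R, idx v < (orb v).card := fun v hv => by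
      simp only [idx, dif_pos hv]; exact (hex v hv).choose_spec.1
    have hidx2 : ∀ v ∈ R, (σ ^ (idx v)) (base v) = v := fun v hv => by
      simp only [idx, dif_pos hv]; exact (hex v hv).choose_spec.2
    have hidx3 : ∀ v ∈ R, ∀ i, i < (orb v).card → (σ ^ i) (base v) = v → idx v = i := by
      intro v hv i hi hiv
      have hc : σ.IsCycleOn (orb v : Set V) := isCycleOn_support_cycleOf σ v
      have h := (hc.pow_apply_eq_pow_apply (hbase1 v hv)).1 ((hidx2 v hv).trans hiv.symm)
      exact Nat.ModEq.eq_of_lt_of_lt h (hidx1 v hv) hi
    have hcard2 : ∀ v ∈ R, 2 ≤ (orb v).card := by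
      intro v hv
      exact (two_le_card_support_cycleOf_iff).2 ((hR v).1 hv)
    have hσR : ∀ v ∈ R, σ v ∈ R ∧ orb (σ v) = orb v := by
      intro v hv
      have : σ v ∈ orb v := (horb v _).2 ⟨⟨1, by simp⟩, hv⟩
      exact ⟨horbR v _ this, horbeq v _ this⟩
    have hσR' : ∀ v ∈ R, σ⁻¹ v ∈ R ∧ orb (σ⁻¹ v) = orb v := by
      intro v hv
      have : σ⁻¹ v ∈ orb v := (horb v _).2 ⟨⟨-1, by simp⟩, hv⟩
      exact ⟨horbR v _ this, horbeq v _ this⟩
    have hbσ : ∀ v ∈ R, base (σ v) = base v := fun v hv =>
      hbase3 v _ hv ((horb v _).2 ⟨⟨1, by simp⟩, hv⟩)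
    have hbσ' : ∀ v ∈ R, base (σ⁻¹ v) = base v := fun v hv =>
      hbase3 v _ hv ((horb v _).2 ⟨⟨-1, by simp⟩, hv⟩)
    -- the index of the next and of the previous point
    have hnext : ∀ v ∈ R, idx v + 1 < (orb v).card → idx (σ v) = idx v + 1 := by
      intro v hv h
      refine hidx3 (σ v) (hσR v hv).1 _ (by rw [(hσR v hv).2]; exact h) ?_
      rw [hbσ v hv, pow_succ', Equiv.Perm.mul_apply, hidx2 v hv]
    have hprev : ∀ v ∈ R, idx v ≠ 0 → idx (σ⁻¹ v) = idx v - 1 := by
      intro v hv h
      refine hidx3 (σ⁻¹ v) (hσR' v hv).1 _ ?_ ?_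
      · rw [(hσR' v hv).2]
        have := hidx1 v hv
        omega
      · rw [hbσ' v hv]
        have e : (σ ^ (idx v)) (base v) = σ ((σ ^ (idx v - 1)) (base v)) := by
          rw [← Equiv.Perm.mul_apply, ← pow_succ']
          congr 2
          omega
        rw [hidx2 v hv] at e
        rw [Equiv.Perm.eq_inv_iff_eq]
        exact e.symm
    let m : V → V := fun v => if v ∉ R then v else
      if Even (idx v + (orb v).card) then σ v else if idx v = 0 then v else σ⁻¹ v
    have m0 : ∀ v, v ∉ R → m v = v := fun v hv => by simp [m, hv]
    have m1 : ∀ v ∈ R, Even (idx v + (orb v).card) → m v = σ v := fun v hv h => by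
      simp [m, hv, h]
    have m2 : ∀ v ∈ R, ¬ Even (idx v + (orb v).card) → idx v = 0 → m v = v := fun v hv h h' => by
      simp only [m, hv, not_true, if_false, if_neg h, if_pos h']
    have m3 : ∀ v ∈ R, ¬ Even (idx v + (orb v).card) → idx v ≠ 0 → m v = σ⁻¹ v :=
      fun v hv h h' => by
      simp only [m, hv, not_true, if_false, if_neg h, if_neg h']
    have hlt : ∀ v ∈ R, Even (idx v + (orb v).card) → idx v + 1 < (orb v).card := by
      intro v hv h
      have h1 := hidx1 v hv
      by_contra h2
      have h3 : idx v + 1 = (orb v).card := by omega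
      rw [← h3] at h
      obtain ⟨r, hr⟩ := h
      omega
    refine ⟨m, ?_, m0, ?_, ?_, ?_⟩
    · intro v
      by_cases hv : v ∈ R
      · by_cases h : Even (idx v + (orb v).card)
        · rw [m1 v hv h]
          have h1 := hnext v hv (hlt v hv h)
          have h2 := (hσR v hv).2
          rw [m3 (σ v) (hσR v hv).1 (by rw [h1, h2]; rw [Nat.not_even_iff_odd]; 
                                        have := h.add_one; convert this using 1; omega)
            (by omega)]
          simp
        · by_cases h0 : idx v = 0
          · rw [m2 v hv h h0, m2 v hv h h0]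
          · rw [m3 v hv h h0]
            have h1 := hprev v hv h0
            have h2 := (hσR' v hv).2
            rw [m1 (σ⁻¹ v) (hσR' v hv).1 (by
              rw [h1, h2]
              rw [Nat.not_even_iff_odd] at h
              obtain ⟨r, hr⟩ := h
              exact ⟨r, by omega⟩)]
            simp
      · rw [m0 v hv, m0 v hv]
    · intro v hv
      by_cases hvR : v ∈ R
      · by_cases h : Even (idx v + (orb v).card)
        · rw [m1 v hvR h]; exact hσ v hvR
        · by_cases h0 : idx v = 0
          · exact absurd (m2 v hvR h h0) hv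
          · rw [m3 v hvR h h0]
            have := hσ (σ⁻¹ v) (hσR' v hvR).1
            have e : σ (σ⁻¹ v) = v := by simp
            rw [e] at this
            exact this.symm
      · exact absurd (m0 v hvR) hv
    · intro v hv hmv
      by_cases h : Even (idx v + (orb v).card)
      · rw [m1 v hv h] at hmv
        exact absurd hmv ((hR v).1 hv)
      · by_cases h0 : idx v = 0
        · have hodd : Odd (orb v).card := by
            rw [h0, zero_add, Nat.not_even_iff_odd] at h
            exact h
          have hbv : base v = v := by
            have := hidx2 v hv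
            rw [h0] at this
            simpa using this
          by_cases h5 : 5 ≤ (orb v).card
          · left
            have := hD (orb v) (mem_filter.2 ⟨mem_image_of_mem _ (mem_univ _), h5, hodd⟩)
            rw [← hbv]
            exact hbase2 v this
          · right
            have h2 := hcard2 v hv
            have h3 : (orb v).card = 3 := by
              obtain ⟨r, hr⟩ := hodd
              omega
            have hu := hσR v hv
            have iu : idx (σ v) = 1 := by
              have := hnext v hv (by omega)
              omega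
            have hmu : m (σ v) = σ (σ v) := by
              refine m1 _ hu.1 ?_
              rw [iu, hu.2, h3]
              decide
            have h33 : σ (σ (σ v)) = v := by
              have hc : σ.IsCycleOn (orb v : Set V) := isCycleOn_support_cycleOf σ v
              have := (hc.pow_apply_eq_pow_apply (m := 3) (n := 0) (hself v hv)).2 (by
                rw [h3]; decide)
              simpa [pow_succ, Equiv.Perm.mul_apply] using this
            refine ⟨σ v, σ (σ v), hmu, ((hR _).1 hu.1).symm, hσ v hv, ?_⟩
            have := hσ (σ (σ v)) (hσR _ hu.1).1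
            rw [h33] at this
            exact this.symm
        · rw [m3 v hv h h0] at hmv
          exfalso
          have := (hR v).1 hv
          apply this
          conv_lhs => rw [← hmv]
          simp
    · intro v hv hmv
      by_cases h : Even (idx v + (orb v).card)
      · rw [m1 v hv h] at hmv
        exact absurd hmv ((hR v).1 hv)
      · by_cases h0 : idx v = 0
        · have hodd : Odd (orb v).card := by
            rw [h0, zero_add, Nat.not_even_iff_odd] at h
            exact h
          have h2 := hcard2 v hv
          have h3 : 3 ≤ (orb v).card := by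
            obtain ⟨r, hr⟩ := hodd
            omega
          have hu := hσR v hv
          have iu : idx (σ v) = 1 := by
            have := hnext v hv (by omega)
            omega
          have hmu : m (σ v) = σ (σ v) := by
            refine m1 _ hu.1 ?_
            rw [iu, hu.2]
            obtain ⟨r, hr⟩ := hodd
            exact ⟨r + 1, by omega⟩
          exact ⟨σ v, by rw [hmu]; exact (hR _).1 hu.1, hσ v hv⟩
        · rw [m3 v hv h h0] at hmv
          exfalso
          have := (hR v).1 hv
          apply this
          conv_lhs => rw [← hmv]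
          simp

end Pool.Agent.Y526.Dom
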