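import Mathlib

/-!
# Two partial matchings have a common proper 2-colouring
-/

set_option autoImplicit false

namespace Pool.Agent.Y526.Dom

open Finset

/-- Two involutions of a finite linearly ordered set have a common colouring with two colours in
which no point has the colour of its (different) partner. -/
theorem exists_colouring_aux {V : Type*} [Fintype V] [LinearOrder V] (k : ℕ) :
    ∀ (m₁ m₂ : V → V), (∀ v, m₁ (m₁ v) = v) → (∀ v, m₂ (m₂ v) = v) →
      (univ.filter (fun v => m₁ v ≠ v)).card ≤ k →
      ∃ c : V → Bool, (∀ v, m₁ v ≠ v → c (m₁ v) ≠ c v) ∧ (∀ v, m₂ v ≠ v → c (m₂ v) ≠ c v) := by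
  induction k with
  | zero =>
    intro m₁ m₂ h₁ h₂ hk
    have h0 : ∀ v, m₁ v = v := by
      intro v
      by_contra hv
      have : v ∈ univ.filter (fun v => m₁ v ≠ v) := by simp [hv]
      have := Finset.card_pos.2 ⟨v, this⟩
      omega
    refine ⟨fun v => decide (v < m₂ v), fun v hv => absurd (h0 v) hv, fun v hv => ?_⟩
    simp only [h₂]
    rcases lt_or_gt_of_ne hv with h | h
    · simp [h, not_lt_of_gt h]
    · simp [h, not_lt_of_gt h]
  | succ k ih =>
    intro m₁ m₂ h₁ h₂ hk
    by_cases h0 : ∀ v, m₁ v = v
    · refine ih m₁ m₂ h₁ h₂ ?_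
      simp [h0]
    push Not at h0
    obtain ⟨v, hv⟩ := h0
    set w := m₁ v with hw
    have hwv : w ≠ v := hv
    have h1w : m₁ w = v := h₁ v
    -- remove the pair `v, w`
    let m₁' : V → V := fun x => if x = v ∨ x = w then x else m₁ x
    let m₂' : V → V := fun x => if x = v ∨ x = w then x else
      if m₂ x = v then (if m₂ w = w ∨ m₂ w = v then x else m₂ w) else
      if m₂ x = w then (if m₂ v = v ∨ m₂ v = w then x else m₂ v) else m₂ x
    have inj₁ : Function.Injective m₁ := fun a b h => by rw [← h₁ a, h, h₁]
    have inj₂ : Function.Injective m₂ := fun a b h => by rw [← h₂ a, h, h₂]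
    have h₁' : ∀ x, m₁' (m₁' x) = x := by
      intro x
      by_cases hx : x = v ∨ x = w
      · simp [m₁', hx]
      · have : ¬ (m₁ x = v ∨ m₁ x = w) := by
          rintro (h | h)
          · apply hx; right; rw [hw, ← h, h₁]
          · apply hx; left; rw [← h₁ x, h, h1w]
        simp only [m₁', if_neg hx, if_neg this, h₁]
    have ev1 : ∀ x, ¬ (x = v ∨ x = w) → m₂ x = v → ¬ (m₂ w = w ∨ m₂ w = v) → m₂' x = m₂ w :=
      fun x h h' h'' => by simp only [m₂', if_neg h, if_pos h', if_neg h'']
    have ev2 : ∀ x, ¬ (x = v ∨ x = w) → m₂ x = v → (m₂ w = w ∨ m₂ w = v) → m₂' x = x :=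
      fun x h h' h'' => by simp only [m₂', if_neg h, if_pos h', if_pos h'']
    have ev3 : ∀ x, ¬ (x = v ∨ x = w) → m₂ x ≠ v → m₂ x = w → ¬ (m₂ v = v ∨ m₂ v = w) →
        m₂' x = m₂ v :=
      fun x h h0 h' h'' => by simp only [m₂', if_neg h, if_neg h0, if_pos h', if_neg h'']
    have ev4 : ∀ x, ¬ (x = v ∨ x = w) → m₂ x ≠ v → m₂ x = w → (m₂ v = v ∨ m₂ v = w) →
        m₂' x = x :=
      fun x h h0 h' h'' => by simp only [m₂', if_neg h, if_neg h0, if_pos h', if_pos h'']
    have ev5 : ∀ x, ¬ (x = v ∨ x = w) → m₂ x ≠ v → m₂ x ≠ w → m₂' x = m₂ x :=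
      fun x h h0 h' => by simp only [m₂', if_neg h, if_neg h0, if_neg h']
    have h₂' : ∀ x, m₂' (m₂' x) = x := by
      intro x
      by_cases hx : x = v ∨ x = w
      · simp [m₂', hx]
      · by_cases hxv : m₂ x = v
        · have hxv' : m₂ v = x := by rw [← hxv, h₂]
          by_cases hww : m₂ w = w ∨ m₂ w = v
          · rw [ev2 x hx hxv hww, ev2 x hx hxv hww]
          · rw [ev1 x hx hxv hww]
            rw [ev3 (m₂ w) (fun h => hww h.symm) (by rw [h₂]; exact hwv) (h₂ w)
              (by rw [hxv']; exact hx), hxv']
        · by_cases hxw : m₂ x = w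
          · have hxw' : m₂ w = x := by rw [← hxw, h₂]
            by_cases hvv : m₂ v = v ∨ m₂ v = w
            · rw [ev4 x hx hxv hxw hvv, ev4 x hx hxv hxw hvv]
            · rw [ev3 x hx hxv hxw hvv]
              rw [ev1 (m₂ v) hvv (h₂ v) (by rw [hxw']; exact fun h => hx h.symm), hxw']
          · rw [ev5 x hx hxv hxw]
            rw [ev5 (m₂ x) (by
              rintro (h | h)
              · exact hxv h
              · exact hxw h) (by rw [h₂]; exact fun h => hx (Or.inl h))
              (by rw [h₂]; exact fun h => hx (Or.inr h)), h₂]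
    have hcard : (univ.filter (fun x => m₁' x ≠ x)).card ≤ k := by
      have hsub : univ.filter (fun x => m₁' x ≠ x) ⊂ univ.filter (fun x => m₁ x ≠ x) := by
        refine Finset.ssubset_iff_subset_ne.2 ⟨?_, ?_⟩
        · intro x hx
          simp only [mem_filter, mem_univ, true_and] at hx ⊢
          intro h
          apply hx
          by_cases hx' : x = v ∨ x = w
          · simp only [m₁', if_pos hx']
          · simp only [m₁', if_neg hx', h]
        · intro h
          have : v ∈ univ.filter (fun x => m₁ x ≠ x) := by simp [hwv, ← hw]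
          rw [← h] at this
          simp [m₁'] at this
      have := Finset.card_lt_card hsub
      omega
    obtain ⟨c, hc₁, hc₂⟩ := ih m₁' m₂' h₁' h₂' hcard
    -- choose the colour of `v`
    have key : ∃ a : Bool, (m₂ v ≠ v → m₂ v ≠ w → c (m₂ v) ≠ a) ∧
        (m₂ w ≠ w → m₂ w ≠ v → c (m₂ w) ≠ !a) := by
      by_cases hvv : m₂ v = v ∨ m₂ v = w
      · by_cases hww : m₂ w = w ∨ m₂ w = v
        · refine ⟨true, fun h h' => ?_, fun h h' => ?_⟩
          · rcases hvv with hvv | hvv
            · exact absurd hvv h
            · exact absurd hvv h'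
          · rcases hww with hww | hww
            · exact absurd hww h
            · exact absurd hww h'
        · refine ⟨c (m₂ w), fun h h' => ?_, fun _ _ => by simp⟩
          rcases hvv with hvv | hvv
          · exact absurd hvv h
          · exact absurd hvv h'
      · refine ⟨!(c (m₂ v)), fun _ _ => by simp, fun h h' => ?_⟩
        have hx : ¬ (m₂ v = v ∨ m₂ v = w) := hvv
        have hww : ¬ (m₂ w = w ∨ m₂ w = v) := by
          rintro (h'' | h'')
          · exact h h''
          · exact h' h''
        have e1 : m₂' (m₂ v) = m₂ w := by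
          have : m₂ (m₂ v) = v := h₂ v
          simp only [m₂', if_neg hx, if_pos this, if_neg hww]
        have e2 : m₂ v ≠ m₂ w := fun h => hwv (inj₂ h).symm
        have := hc₂ (m₂ v) (by rw [e1]; exact e2.symm)
        rw [e1] at this
        simpa using this
    obtain ⟨a, ha, hb⟩ := key
    refine ⟨fun x => if x = v then a else if x = w then !a else c x, ?_, ?_⟩
    · intro x hx
      by_cases hxv : x = v
      · subst hxv
        simp [← hw, hwv]
      · by_cases hxw : x = w
        · subst hxw
          simp [h1w, hwv]
        · have n1 : m₁ x ≠ v := by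
            intro h; apply hxw; rw [hw, ← h, h₁]
          have n2 : m₁ x ≠ w := by
            intro h; apply hxv; rw [← h₁ x, h, h1w]
          simp only [if_neg hxv, if_neg hxw, if_neg n1, if_neg n2]
          have e : m₁' x = m₁ x := by
            simp only [m₁']
            rw [if_neg]; rintro (h | h)
            · exact hxv h
            · exact hxw h
          have := hc₁ x (by rw [e]; exact hx)
          rwa [e] at this
    · intro x hx
      by_cases hxv : x = v
      · subst hxv
        by_cases h : m₂ x = w
        · simp [h, hwv]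
        · have := ha hx h
          simp only [if_true, if_neg hx, if_neg h]
          exact this
      · by_cases hxw : x = w
        · have hx' : m₂ w ≠ w := by rw [← hxw]; exact hx
          by_cases h : m₂ w = v
          · simp only [hxw, h, if_true, if_neg hwv]
            simp
          · have := hb hx' h
            simp only [hxw, if_neg hwv, if_true, if_neg h, if_neg hx']
            exact this
        · by_cases n1 : m₂ x = v
          · have hxv' : m₂ v = x := by rw [← n1, h₂]
            have := ha (by rw [hxv']; exact hxv) (by rw [hxv']; exact hxw)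
            simp only [n1, if_true, if_neg hxv, if_neg hxw]
            rw [hxv'] at this
            exact this.symm
          · by_cases n2 : m₂ x = w
            · have hxw' : m₂ w = x := by rw [← n2, h₂]
              have := hb (by rw [hxw']; exact hxw) (by rw [hxw']; exact hxv)
              simp only [n2, if_neg hwv, if_true, if_neg hxv, if_neg hxw]
              rw [hxw'] at this
              exact this.symm
            · have e : m₂' x = m₂ x := ev5 x (by
                rintro (h | h)
                · exact hxv h
                · exact hxw h) n1 n2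
              have := hc₂ x (by rw [e]; exact hx)
              rw [e] at this
              simp only [if_neg hxv, if_neg hxw, if_neg n1, if_neg n2]
              exact this

theorem exists_colouring {V : Type*} [Fintype V] [LinearOrder V] (m₁ m₂ : V → V)
    (h₁ : ∀ v, m₁ (m₁ v) = v) (h₂ : ∀ v, m₂ (m₂ v) = v) :
    ∃ c : V → Bool, (∀ v, m₁ v ≠ v → c (m₁ v) ≠ c v) ∧ (∀ v, m₂ v ≠ v → c (m₂ v) ≠ c v) :=
  exists_colouring_aux _ m₁ m₂ h₁ h₂ le_rfl

end Pool.Agent.Y526.Dom
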