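import Pool.Agent.Y526.Dom.Basic
import Pool.Agent.Y526.Dom.MD
import Pool.Agent.Y526.Dom.Orb
import Pool.Agent.Y526.Dom.Drop
import Pool.Agent.Y526.Dom.TwoCol

/-!
# Simultaneous domination of two graphs in which independent sets have many neighbours
-/

set_option autoImplicit false

namespace Pool.Agent.Y526.Dom

open Finset

/-- The needs of one graph. -/
theorem exists_system {V : Type} [Fintype V] [DecidableEq V] (G : SimpleGraph V) (p q : ℕ)
    (hpq : 3 * p ≤ 2 * q)
    (hG : ∀ J : Finset V, Disjoint J (nbhd G J) → p * J.card ≤ q * (nbhd G J).card) :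
    ∃ (N : Type) (_ : Fintype N) (_ : DecidableEq N) (s h : N → Finset V),
      (∀ X : Finset N, (p + q) * X.card ≤
        (q - p) * (X.biUnion s).card + (p + q) * (X.biUnion h).card) ∧
      (∀ t, (s t).Nonempty) ∧
      ∀ (D : Finset V) (g : N → V), (∀ t, Disjoint (s t) D → g t ∈ h t) →
        (∀ t t', Disjoint (s t) D → Disjoint (s t') D → g t = g t' → t = t') →
        ∃ m : V → V, (∀ v, m (m v) = v) ∧ (∀ v, m v ≠ v → G.Adj v (m v)) ∧
          ∀ v, m v = v → v ∈ D ∨ (∃ u ∈ D, G.Adj v u) ∨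
            ∃ u w, m u = w ∧ u ≠ w ∧ G.Adj v u ∧ G.Adj v w := by
  classical
  obtain ⟨I, hdis, hA, hR⟩ := exists_critical G
  set A := nbhd G I with hAdef
  let R : Finset V := (I ∪ A)ᶜ
  obtain ⟨μ, hμ, hμi⟩ := exists_hub_partner G I hA
  obtain ⟨σ, hσR, hσ⟩ := exists_rest_perm G R (by
    intro X hX
    have h1 : Disjoint X (I ∪ A) := by
      rw [Finset.disjoint_left]
      intro v hv
      exact Finset.mem_compl.1 (hX hv)
    refine (hR X h1).trans (Finset.card_le_card ?_)
    intro v hv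
    rw [mem_sdiff] at hv
    exact mem_inter.2 ⟨hv.1, Finset.mem_compl.2 hv.2⟩)
  obtain ⟨B, hB1, hB2, hB3⟩ := exists_pairing G σ R hσR hσ
  let s : {x // x ∈ I} ⊕ {b // b ∈ B} → Finset V :=
    Sum.elim (fun v => {v.1} ∪ nbhd G {v.1}) (fun b => b.1)
  let h : {x // x ∈ I} ⊕ {b // b ∈ B} → Finset V := Sum.elim (fun v => nbhd G {v.1}) (fun _ => ∅)
  refine ⟨{x // x ∈ I} ⊕ {b // b ∈ B}, inferInstance, inferInstance, s, h, ?_, ?_, ?_⟩
  · intro X
    let J : Finset V := univ.filter (fun v => ∃ hv : v ∈ I, Sum.inl ⟨v, hv⟩ ∈ X)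
    let C : Finset (Finset V) := B.filter (fun b => ∃ hb : b ∈ B, Sum.inr ⟨b, hb⟩ ∈ X)
    have hJI : J ⊆ I := by
      intro v hv
      exact (mem_filter.1 hv).2.1
    have hXc : X.card ≤ J.card + C.card := by
      have hCB : ∀ b ∈ C, b ∈ B := fun b hb => (mem_filter.1 hb).1
      have : X ⊆ (J.attach.image (fun v => Sum.inl ⟨v.1, hJI v.2⟩)) ∪
          (C.attach.image (fun b => Sum.inr ⟨b.1, hCB b.1 b.2⟩)) := by
        intro x hx
        rcases x with ⟨v, hv⟩ | ⟨b, hb⟩
        · exact mem_union_left _ (mem_image.2 ⟨⟨v, mem_filter.2 ⟨mem_univ _, hv, hx⟩⟩,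
            mem_attach _ _, rfl⟩)
        · exact mem_union_right _ (mem_image.2 ⟨⟨b, mem_filter.2 ⟨hb, hb, hx⟩⟩,
            mem_attach _ _, rfl⟩)
      refine (Finset.card_le_card this).trans ((Finset.card_union_le _ _).trans ?_)
      refine Nat.add_le_add ?_ ?_
      · exact Finset.card_image_le.trans (by simp)
      · exact Finset.card_image_le.trans (by simp)
    have hNJ : nbhd G J ⊆ X.biUnion h := by
      intro v hv
      obtain ⟨u, hu, huv⟩ := mem_nbhd.1 hv
      obtain ⟨huI, huX⟩ := (mem_filter.1 hu).2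
      refine mem_biUnion.2 ⟨_, huX, ?_⟩
      exact mem_nbhd.2 ⟨u, mem_singleton_self _, huv⟩
    have hs : (J ∪ nbhd G J) ∪ C.biUnion id ⊆ X.biUnion s := by
      intro v hv
      rcases mem_union.1 hv with hv | hv
      · rcases mem_union.1 hv with hv | hv
        · obtain ⟨hvI, hvX⟩ := (mem_filter.1 hv).2
          exact mem_biUnion.2 ⟨_, hvX, mem_union_left _ (mem_singleton_self _)⟩
        · obtain ⟨u, hu, huv⟩ := mem_nbhd.1 hv
          obtain ⟨huI, huX⟩ := (mem_filter.1 hu).2
          exact mem_biUnion.2 ⟨_, huX, mem_union_right _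
            (mem_nbhd.2 ⟨u, mem_singleton_self _, huv⟩)⟩
      · obtain ⟨b, hb, hvb⟩ := mem_biUnion.1 hv
        obtain ⟨hbB, hbX⟩ := (mem_filter.1 hb).2
        exact mem_biUnion.2 ⟨_, hbX, hvb⟩
    have hJA : nbhd G J ⊆ A := nbhd_mono hJI
    have d1 : Disjoint J (nbhd G J) := hdis.mono hJI hJA
    have d2 : Disjoint (J ∪ nbhd G J) (C.biUnion id) := by
      rw [Finset.disjoint_left]
      intro v hv hv'
      obtain ⟨b, hb, hvb⟩ := mem_biUnion.1 hv'
      have hvR : v ∈ R := (hB1 b (mem_filter.1 hb).1).1 hvb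
      refine (Finset.mem_compl.1 hvR) ?_
      rcases mem_union.1 hv with hv | hv
      · exact mem_union_left _ (hJI hv)
      · exact mem_union_right _ (hJA hv)
    have hC : 5 * C.card ≤ (C.biUnion id).card := by
      rw [Finset.card_biUnion]
      · have : ∑ b ∈ C, 5 ≤ ∑ b ∈ C, (id b).card :=
          Finset.sum_le_sum (fun b hb => (hB1 b (mem_filter.1 hb).1).2)
        simpa [mul_comm] using this
      · intro b hb c hc hbc
        exact hB2 b (mem_filter.1 hb).1 c (mem_filter.1 hc).1 hbc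
    have c1 := Finset.card_le_card hs
    rw [Finset.card_union_of_disjoint d2, Finset.card_union_of_disjoint d1] at c1
    have c2 := Finset.card_le_card hNJ
    have c3 := hG J d1
    obtain ⟨e, he⟩ : ∃ e, e = q - p := ⟨_, rfl⟩
    have hqe : q = e + p := by omega
    rw [← he]
    generalize J.card = j at *
    generalize C.card = c at *
    generalize X.card = x at *
    generalize (nbhd G J).card = a at *
    generalize (X.biUnion s).card = y at *
    generalize (X.biUnion h).card = z at *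
    generalize (C.biUnion id).card = w at *
    have hE5 : p + q ≤ 5 * e := by omega
    have k1 : (p + q) * x ≤ (p + q) * (j + c) := Nat.mul_le_mul_left _ hXc
    have k2 : (p + q) * c ≤ e * w := by
      calc (p + q) * c ≤ (5 * e) * c := Nat.mul_le_mul_right _ hE5
        _ = e * (5 * c) := by ring
        _ ≤ e * w := Nat.mul_le_mul_left _ hC
    have k3 : e * (j + a + w) ≤ e * y := Nat.mul_le_mul_left _ c1
    have k4 : (p + q) * a ≤ (p + q) * z := Nat.mul_le_mul_left _ c2
    subst hqe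
    nlinarith
  · intro t
    rcases t with v | b
    · exact ⟨v.1, mem_union_left _ (mem_singleton_self _)⟩
    · have := (hB1 b.1 b.2).2
      exact Finset.card_pos.1 (by
        show 0 < b.1.card
        omega)
  · intro D g hg hgi
    have hblock : ∀ b ∈ B, (b ∩ D).Nonempty := by
      intro b hb
      by_contra hne
      have hd : Disjoint (s (Sum.inr ⟨b, hb⟩)) D := by
        rw [Finset.not_nonempty_iff_eq_empty] at hne
        exact Finset.disjoint_iff_inter_eq_empty.2 hne
      exact absurd (hg _ hd) (Finset.notMem_empty _)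
    obtain ⟨mR, hR1, hR2, hR3, hR4, -⟩ := hB3 D hblock
    let Q : Finset V := univ.filter (fun v => ∃ hv : v ∈ I, Disjoint (s (Sum.inl ⟨v, hv⟩)) D)
    have hQI : Q ⊆ I := fun v hv => (mem_filter.1 hv).2.1
    let g' : V → V := fun v => if hv : v ∈ I then g (Sum.inl ⟨v, hv⟩) else v
    obtain ⟨mI, hI1, hI2, hI3, hI4, hI5⟩ := exists_cover_matching G I A Q hdis μ hμ hμi hQI g'
      (by
        intro v hv
        obtain ⟨hvI, hvD⟩ := (mem_filter.1 hv).2
        have h1 := hg _ hvD
        have h0 : g' v = g (Sum.inl ⟨v, hvI⟩) := by simp only [g', dif_pos hvI]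
        have h2 : g' v ∈ nbhd G {v} := by rw [h0]; exact h1
        obtain ⟨u, hu, huv⟩ := mem_nbhd.1 h2
        rw [mem_singleton] at hu
        subst hu
        exact ⟨mem_nbhd.2 ⟨u, hvI, huv⟩, huv⟩)
      (by
        intro v hv w hw hvw
        obtain ⟨hvI, hvD⟩ := (mem_filter.1 hv).2
        obtain ⟨hwI, hwD⟩ := (mem_filter.1 hw).2
        have : g (Sum.inl ⟨v, hvI⟩) = g (Sum.inl ⟨w, hwI⟩) := by
          simpa [g', hvI, hwI] using hvw
        have := hgi _ _ hvD hwD this
        simpa using this)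
    have memR : ∀ v, v ∈ R ↔ v ∉ I ∧ v ∉ A := by
      intro v
      simp [R]
    have mRR : ∀ v, v ∈ R → mR v ∈ R := by
      intro v hv
      by_contra h'
      have := hR2 _ h'
      rw [hR1] at this
      exact h' (this ▸ hv)
    have mIN : ∀ v, v ∉ R → mI v ∉ R := by
      intro v hv h'
      have h'' := (memR _).1 h'
      have := hI2 _ h''.1 h''.2
      rw [hI1] at this
      exact hv (this ▸ h')
    let m : V → V := fun v => if v ∈ R then mR v else mI v
    have m1 : ∀ v, v ∈ R → m v = mR v := fun v hv => by simp [m, hv]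
    have m2 : ∀ v, v ∉ R → m v = mI v := fun v hv => by simp [m, hv]
    refine ⟨m, ?_, ?_, ?_⟩
    · intro v
      by_cases hv : v ∈ R
      · rw [m1 v hv, m1 _ (mRR v hv), hR1]
      · rw [m2 v hv, m2 _ (mIN v hv), hI1]
    · intro v hv
      by_cases hvR : v ∈ R
      · rw [m1 v hvR] at hv ⊢; exact hR3 v hv
      · rw [m2 v hvR] at hv ⊢; exact hI3 v hv
    · intro v hv
      by_cases hvR : v ∈ R
      · rw [m1 v hvR] at hv
        rcases hR4 v hvR hv with h' | ⟨u, w, huw, hne, hu, hw⟩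
        · exact Or.inl h'
        · right; right
          have huR : u ∈ R := by
            by_contra h'
            exact hne ((hR2 u h').symm.trans huw)
          exact ⟨u, w, by rw [m1 u huR]; exact huw, hne, hu, hw⟩
      · rw [m2 v hvR] at hv
        have hnR : v ∈ I ∨ v ∈ A := by
          by_contra h'
          push Not at h'
          exact hvR ((memR v).2 h')
        rcases hnR with hvI | hvA
        · have hvQ : v ∉ Q := fun h' => hI5 v h' hv
          have hnd : ¬ Disjoint (s (Sum.inl ⟨v, hvI⟩)) D := fun h' =>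
            hvQ (mem_filter.2 ⟨mem_univ _, hvI, h'⟩)
          obtain ⟨x, hx1, hx2⟩ := Finset.not_disjoint_iff.1 hnd
          rcases mem_union.1 hx1 with hx | hx
          · have hx' : x = v := mem_singleton.1 hx
            exact Or.inl (hx' ▸ hx2)
          · obtain ⟨u, hu, hux⟩ := mem_nbhd.1 hx
            have hu' : u = v := mem_singleton.1 hu
            exact Or.inr (Or.inl ⟨x, hx2, hu' ▸ hux⟩)
        · exact absurd hv (hI4 v hvA)

/-- **Main theorem.** If every independent set `J` of each of two graphs on the same vertices has at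
least `(p / q) |J|` neighbours, where `p / q ≤ 2 / 3`, then some set of at most
`q n / (p + q)` vertices dominates both graphs. -/
theorem exists_simultaneous_dominating {V : Type} [Fintype V] [LinearOrder V]
    (G₁ G₂ : SimpleGraph V) (p q : ℕ) (hq : 0 < q) (hpq : 3 * p ≤ 2 * q)
    (hG₁ : ∀ J : Finset V, Disjoint J (nbhd G₁ J) → p * J.card ≤ q * (nbhd G₁ J).card)
    (hG₂ : ∀ J : Finset V, Disjoint J (nbhd G₂ J) → p * J.card ≤ q * (nbhd G₂ J).card) :
    ∃ S : Finset V, (p + q) * S.card ≤ q * Fintype.card V ∧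
      ∀ v, (v ∈ S ∨ ∃ u ∈ S, G₁.Adj v u) ∧ (v ∈ S ∨ ∃ u ∈ S, G₂.Adj v u) := by
  classical
  obtain ⟨N₁, _, _, s₁, h₁, P₁, ne₁, F₁⟩ := exists_system G₁ p q hpq hG₁
  obtain ⟨N₂, _, _, s₂, h₂, P₂, ne₂, F₂⟩ := exists_system G₂ p q hpq hG₂
  obtain ⟨D, hD, ⟨g₁, hg₁, hi₁⟩, ⟨g₂, hg₂, hi₂⟩⟩ := exists_drop (q - p) (p + q) (by omega)
    (by omega) s₁ h₁ s₂ h₂ P₁ P₂ ne₁ ne₂
  obtain ⟨m₁, a₁, b₁, c₁⟩ := F₁ D g₁ hg₁ hi₁
  obtain ⟨m₂, a₂, b₂, c₂⟩ := F₂ D g₂ hg₂ hi₂
  obtain ⟨c, hc₁, hc₂⟩ := exists_colouring m₁ m₂ a₁ a₂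
  -- a colour class is a complement of a simultaneous dominating set
  have hdom : ∀ (x : Bool) (G : SimpleGraph V) (m : V → V), (∀ v, m v ≠ v → G.Adj v (m v)) →
      (∀ v, m v = v → v ∈ D ∨ (∃ u ∈ D, G.Adj v u) ∨
        ∃ u w, m u = w ∧ u ≠ w ∧ G.Adj v u ∧ G.Adj v w) →
      (∀ v, m v ≠ v → c (m v) ≠ c v) →
      ∀ v, v ∈ (univ.filter (fun v => v ∉ D ∧ c v = x))ᶜ ∨
        ∃ u ∈ (univ.filter (fun v => v ∉ D ∧ c v = x))ᶜ, G.Adj v u := by
    intro x G m hm1 hm2 hm3 v
    by_cases hv : v ∈ (univ.filter (fun v => v ∉ D ∧ c v = x))ᶜ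
    · exact Or.inl hv
    right
    have hv' : v ∉ D ∧ c v = x := by
      rw [Finset.mem_compl, not_not] at hv
      exact (mem_filter.1 hv).2
    have hmem : ∀ u, (u ∈ D ∨ c u ≠ x) → u ∈ (univ.filter (fun v => v ∉ D ∧ c v = x))ᶜ := by
      intro u hu
      rw [Finset.mem_compl, mem_filter]
      rintro ⟨-, h1, h2⟩
      rcases hu with hu | hu
      · exact h1 hu
      · exact hu h2
    by_cases hmv : m v = v
    · rcases hm2 v hmv with h | ⟨u, hu, huv⟩ | ⟨u, w, huw, hne, hu, hw⟩
      · exact absurd h hv'.1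
      · exact ⟨u, hmem u (Or.inl hu), huv⟩
      · have h3 := hm3 u (by rw [huw]; exact hne.symm)
        rw [huw] at h3
        by_cases hcu : c u = x
        · exact ⟨w, hmem w (Or.inr (by rw [← hcu]; exact h3)), hw⟩
        · exact ⟨u, hmem u (Or.inr hcu), hu⟩
    · exact ⟨m v, hmem _ (Or.inr (by rw [← hv'.2]; exact hm3 v hmv)), hm1 v hmv⟩
  let T : Bool → Finset V := fun x => univ.filter (fun v => v ∉ D ∧ c v = x)
  have hT : (T true).card + (T false).card + D.card = Fintype.card V := by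
    have h1 : (T true ∪ T false) ∪ D = univ := by
      ext v
      simp only [T, mem_union, mem_filter, mem_univ, true_and, iff_true]
      by_cases hv : v ∈ D
      · exact Or.inr hv
      · left
        cases h : c v
        · exact Or.inr ⟨hv, rfl⟩
        · exact Or.inl ⟨hv, rfl⟩
    have d1 : Disjoint (T true) (T false) := by
      rw [Finset.disjoint_left]
      intro v hv hv'
      have e1 := (mem_filter.1 hv).2.2
      have e2 := (mem_filter.1 hv').2.2
      rw [e1] at e2
      exact absurd e2 (by simp)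
    have d2 : Disjoint (T true ∪ T false) D := by
      rw [Finset.disjoint_left]
      intro v hv hvD
      rcases mem_union.1 hv with hv | hv
      · exact (mem_filter.1 hv).2.1 hvD
      · exact (mem_filter.1 hv).2.1 hvD
    have := congrArg Finset.card h1
    rw [Finset.card_union_of_disjoint d2, Finset.card_union_of_disjoint d1,
      Finset.card_univ] at this
    exact this
  obtain ⟨x, hx⟩ : ∃ x, Fintype.card V ≤ 2 * (T x).card + D.card := by
    by_cases h : (T false).card ≤ (T true).card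
    · exact ⟨true, by omega⟩
    · exact ⟨false, by omega⟩
  refine ⟨(T x)ᶜ, ?_, fun v => ⟨hdom x G₁ m₁ b₁ c₁ hc₁ v, hdom x G₂ m₂ b₂ c₂ hc₂ v⟩⟩
  have h1 : (T x)ᶜ.card = Fintype.card V - (T x).card := Finset.card_compl _
  have h2 : (T x).card ≤ Fintype.card V := Finset.card_le_univ _
  obtain ⟨e, he⟩ : ∃ e, e = q - p := ⟨_, rfl⟩
  have hqe : q = e + p := by omega
  rw [← he] at hD
  have h3 : 2 * (T x)ᶜ.card ≤ Fintype.card V + D.card := by omega
  have h4 := Nat.mul_le_mul_left (p + q) h3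
  subst hqe
  nlinarith

end Pool.Agent.Y526.Dom
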