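import Pool.Agent.Y526.Dom.OneD
import Pool.Agent.Y526.Dom.Main

/-!
# Simultaneous domination if one of the two graphs is arbitrary
-/

set_option autoImplicit false

namespace Pool.Agent.Y526.Dom

open Finset

/-- A colouring in which all matched pairs have different colours gives two dominating sets. -/
theorem dominates_of_colouring {V : Type} [Fintype V] [DecidableEq V] (G : SimpleGraph V)
    (E : Finset V) (m : V → V) (c : V → Bool) (x : Bool)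
    (hm : ∀ v, m v ≠ v → G.Adj v (m v)) (hc : ∀ v, m v ≠ v → c (m v) ≠ c v)
    (h : ∀ v, m v = v → v ∈ E ∨ (∃ u ∈ E, G.Adj v u) ∨
      (∃ u w, m u = w ∧ u ≠ w ∧ G.Adj v u ∧ G.Adj v w) ∨ ∃ u, G.Adj v u ∧ c u ≠ c v) :
    ∀ v, v ∈ (univ.filter (fun v => v ∉ E ∧ c v = x))ᶜ ∨
      ∃ u ∈ (univ.filter (fun v => v ∉ E ∧ c v = x))ᶜ, G.Adj v u := by
  intro v
  by_cases hv : v ∈ (univ.filter (fun v => v ∉ E ∧ c v = x))ᶜ
  · exact Or.inl hv
  right
  have hv' : v ∉ E ∧ c v = x := by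
    rw [Finset.mem_compl, not_not] at hv
    exact (mem_filter.1 hv).2
  have hmem : ∀ u, (u ∈ E ∨ c u ≠ x) → u ∈ (univ.filter (fun v => v ∉ E ∧ c v = x))ᶜ := by
    intro u hu
    rw [Finset.mem_compl, mem_filter]
    rintro ⟨-, h1, h2⟩
    rcases hu with hu | hu
    · exact h1 hu
    · exact hu h2
  by_cases hmv : m v = v
  · rcases h v hmv with h | ⟨u, hu, huv⟩ | ⟨u, w, huw, hne, hu, hw⟩ | ⟨u, hu, huc⟩
    · exact absurd h hv'.1
    · exact ⟨u, hmem u (Or.inl hu), huv⟩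
    · have h3 := hc u (by rw [huw]; exact hne.symm)
      rw [huw] at h3
      by_cases hcu : c u = x
      · exact ⟨w, hmem w (Or.inr (by rw [← hcu]; exact h3)), hw⟩
      · exact ⟨u, hmem u (Or.inr hcu), hu⟩
    · exact ⟨u, hmem u (Or.inr (by rw [← hv'.2]; exact huc)), hu⟩
  · exact ⟨m v, hmem _ (Or.inr (by rw [← hv'.2]; exact hc v hmv)), hm v hmv⟩

/-- **Theorem.** If one graph has minimum degree at least two and in the other graph every
independent set `J` has at least `(4 / 5) |J|` neighbours, some set of at most `3 n / 5` vertices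
dominates both graphs. -/
theorem exists_simultaneous_dominating_one {V : Type} [Fintype V] [LinearOrder V]
    (G₁ G₂ : SimpleGraph V) (hG₁ : ∀ v, ∃ a b, a ≠ b ∧ G₁.Adj v a ∧ G₁.Adj v b)
    (hG₂ : ∀ J : Finset V, Disjoint J (nbhd G₂ J) → 4 * J.card ≤ 5 * (nbhd G₂ J).card) :
    ∃ S : Finset V, 5 * S.card ≤ 3 * Fintype.card V ∧
      ∀ v, (v ∈ S ∨ ∃ u ∈ S, G₁.Adj v u) ∧ (v ∈ S ∨ ∃ u ∈ S, G₂.Adj v u) := by
  classical
  obtain ⟨A, I, σ₁, e₁, e₂, hIA, hR₁, hσ₁, he, hdeg⟩ := exists_normal_form G₁ hG₁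
  obtain ⟨B₁, hB1, hB2, hB3⟩ := exists_pairing G₁ σ₁ (I ∪ A)ᶜ hR₁ hσ₁
  obtain ⟨W, hWA, hLW, hdeg'⟩ := exists_deleted_hubs A I e₁ e₂
  set L : Finset V := I.filter (fun l => e₁ l ∈ W ∨ e₂ l ∈ W) with hLdef
  obtain ⟨I₂, hI₂, hA₂, hR₂⟩ := exists_critical G₂
  set A₂ := nbhd G₂ I₂ with hA₂def
  obtain ⟨μ₂, hμ₂, hμ₂i⟩ := exists_hub_partner G₂ I₂ hA₂
  obtain ⟨σ₂, hσ₂R, hσ₂⟩ := exists_rest_perm G₂ (I₂ ∪ A₂)ᶜ (by
    intro X hX
    have h1 : Disjoint X (I₂ ∪ A₂) := by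
      rw [Finset.disjoint_left]
      intro v hv
      exact Finset.mem_compl.1 (hX hv)
    refine (hR₂ X h1).trans (Finset.card_le_card ?_)
    intro v hv
    rw [mem_sdiff] at hv
    exact mem_inter.2 ⟨hv.1, Finset.mem_compl.2 hv.2⟩)
  obtain ⟨B₂, hC1, hC2, hC3⟩ := exists_pairing G₂ σ₂ (I₂ ∪ A₂)ᶜ hσ₂R hσ₂
  have hLmem : ∀ l ∈ I, (l ∈ L ↔ e₁ l ∈ W ∨ e₂ l ∈ W) := by
    intro l hl
    rw [hLdef, mem_filter]
    exact ⟨fun h => h.2, fun h => ⟨hl, h⟩⟩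
  have hK : I.filter (fun l => ¬ (e₁ l ∈ W ∨ e₂ l ∈ W)) = I \ L := by
    ext l
    rw [mem_filter, mem_sdiff]
    constructor
    · rintro ⟨h1, h2⟩
      exact ⟨h1, fun h => h2 ((hLmem l h1).1 h)⟩
    · rintro ⟨h1, h2⟩
      exact ⟨h1, fun h => h2 ((hLmem l h1).2 h)⟩
  rw [hK] at hdeg'
  obtain ⟨D, hD, hDB, ⟨γ₁, hγ₁, hγ₁i⟩, P, Q₂, γ₂, μ₁, hPL, hμ₁, hμ₁i, hQ₂, hγ₂, hγ₂i, hrest, hDB₂⟩ :=
    exists_always G₂ A I W L (I \ L) e₁ e₂ B₁ B₂ I₂ hIA hWA (filter_subset _ _) rfl hLmem hLW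
      (fun l hl => ⟨(he l hl).1, (he l hl).2.1, (he l hl).2.2.1⟩) hdeg hdeg'
      (fun b hb => ⟨by
        rw [Finset.disjoint_left]
        intro v hv
        exact Finset.mem_compl.1 ((hB1 b hb).1 hv), (hB1 b hb).2⟩) hB2
      (fun b hb => ⟨by
        rw [Finset.disjoint_left]
        intro v hv
        exact Finset.mem_compl.1 ((hC1 b hb).1 hv), (hC1 b hb).2⟩) hC2 hI₂ hG₂
  have memR₁ : ∀ v, v ∈ (I ∪ A)ᶜ ↔ v ∉ I ∧ v ∉ A := by intro v; simp
  have memR₂ : ∀ v, v ∈ (I₂ ∪ A₂)ᶜ ↔ v ∉ I₂ ∧ v ∉ A₂ := by intro v; simp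
  have hLI : L ⊆ I := filter_subset _ _
  -- the first matching
  let A' : Finset V := A.filter (fun a => a ∉ W ∧ a ∉ D)
  let Q₁ : Finset V := (I \ L).filter (fun v => v ∉ D ∧ e₁ v ∉ D ∧ e₂ v ∉ D)
  have heA' : ∀ v ∈ Q₁, e₁ v ∈ A' ∧ e₂ v ∈ A' := by
    intro v hv
    obtain ⟨h1, h2, h3, h4⟩ := mem_filter.1 hv
    obtain ⟨hvI, hvL⟩ := mem_sdiff.1 h1
    rw [hLmem v hvI] at hvL
    push Not at hvL
    exact ⟨mem_filter.2 ⟨(he v hvI).1, hvL.1, h3⟩, mem_filter.2 ⟨(he v hvI).2.1, hvL.2, h4⟩⟩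
  obtain ⟨mI₁, i1, i2, i3, i4, i5⟩ := exists_cover_matching G₁ (I \ P) A' Q₁
    (hIA.mono sdiff_subset (filter_subset _ _)) μ₁ (by
      intro a ha
      obtain ⟨h1, h2, h3⟩ := mem_filter.1 ha
      obtain ⟨k1, k2, k3⟩ := hμ₁ a h1 h2 h3
      refine ⟨mem_sdiff.2 ⟨k1, k3⟩, ?_⟩
      rcases k2 with k2 | k2
      · have := (he (μ₁ a) k1).2.2.2.1
        rw [k2] at this
        exact this.symm
      · have := (he (μ₁ a) k1).2.2.2.2
        rw [k2] at this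
        exact this.symm)
    (by
      intro a ha b hb hab
      obtain ⟨h1, h2, h3⟩ := mem_filter.1 (Finset.mem_coe.1 ha)
      obtain ⟨k1, k2, k3⟩ := mem_filter.1 (Finset.mem_coe.1 hb)
      exact hμ₁i ⟨h1, h2, h3⟩ ⟨k1, k2, k3⟩ hab)
    (by
      intro v hv
      obtain ⟨h1, -⟩ := mem_filter.1 hv
      obtain ⟨hvI, hvL⟩ := mem_sdiff.1 h1
      exact mem_sdiff.2 ⟨hvI, fun h => hvL (hPL h)⟩) γ₁
    (by
      intro v hv
      obtain ⟨h1, h2, h3, h4⟩ := mem_filter.1 hv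
      obtain ⟨hvI, hvL⟩ := mem_sdiff.1 h1
      rcases hγ₁ v h1 h2 h3 h4 with h | h
      · rw [h]; exact ⟨(heA' v hv).1, (he v hvI).2.2.2.1⟩
      · rw [h]; exact ⟨(heA' v hv).2, (he v hvI).2.2.2.2⟩)
    (by
      intro v hv w hw hvw
      obtain ⟨h1, h2, h3, h4⟩ := mem_filter.1 (Finset.mem_coe.1 hv)
      obtain ⟨k1, k2, k3, k4⟩ := mem_filter.1 (Finset.mem_coe.1 hw)
      exact hγ₁i ⟨h1, h2, h3, h4⟩ ⟨k1, k2, k3, k4⟩ hvw)
  obtain ⟨mR₁, r1, r2, r3, r4, -⟩ := hB3 D hDB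
  obtain ⟨m₁, a₁, b₁, c₁, d₁⟩ := exists_combined G₁ (I ∪ A)ᶜ mI₁ mR₁ i1 (by
    intro v hv
    have := (memR₁ v).1 hv
    exact i2 v (fun h => this.1 (mem_sdiff.1 h).1) (fun h => this.2 (mem_filter.1 h).1)) i3 r1 r2 r3
  -- the second matching
  obtain ⟨mI₂, j1, j2, j3, j4, j5⟩ := exists_cover_matching G₂ I₂ A₂ Q₂ hI₂ μ₂ hμ₂ hμ₂i hQ₂ γ₂
    (fun v hv => ⟨mem_nbhd.2 ⟨v, hQ₂ hv, hγ₂ v hv⟩, hγ₂ v hv⟩) hγ₂i
  obtain ⟨mR₂, t1, t2, t3, t4, t5⟩ := hC3 (D ∪ W ∪ P) hDB₂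
  obtain ⟨m₂, a₂, b₂, c₂, d₂⟩ := exists_combined G₂ (I₂ ∪ A₂)ᶜ mI₂ mR₂ j1 (by
    intro v hv
    have := (memR₂ v).1 hv
    exact j2 v this.1 this.2) j3 t1 t2 t3
  have hA₂m : ∀ a ∈ A₂, m₂ a ≠ a := by
    intro a ha
    rw [d₂ a (fun h => ((memR₂ a).1 h).2 ha)]
    exact j4 a ha
  -- the colouring
  obtain ⟨c₀, hc₁, hc₂⟩ := exists_colouring m₁ m₂ a₁ a₂
  have hnb : ∀ l, ∃ u, l ∈ P → m₂ l = l → G₂.Adj l u ∧ m₂ u ≠ u := by
    intro l
    by_cases h : l ∈ P ∧ m₂ l = l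
    · by_cases hlI : l ∈ I₂
      · have h4 := hG₂ {l} (hI₂.mono (Finset.singleton_subset_iff.2 hlI)
          (nbhd_mono (Finset.singleton_subset_iff.2 hlI)))
        rw [Finset.card_singleton] at h4
        obtain ⟨u, hu⟩ : (nbhd G₂ {l}).Nonempty := Finset.card_pos.1 (by omega)
        obtain ⟨w, hw, hwu⟩ := mem_nbhd.1 hu
        rw [mem_singleton] at hw
        subst hw
        exact ⟨u, fun _ _ => ⟨hwu, hA₂m u (mem_nbhd.2 ⟨w, hlI, hwu⟩)⟩⟩
      · have hlA : l ∉ A₂ := fun h' => hA₂m l h' h.2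
        have hlR : l ∈ (I₂ ∪ A₂)ᶜ := (memR₂ l).2 ⟨hlI, hlA⟩
        obtain ⟨u, hu, hlu⟩ := t5 l hlR (by rw [← c₂ l hlR]; exact h.2)
        have huR : u ∈ (I₂ ∪ A₂)ᶜ := by
          by_contra h'
          exact hu (t2 u h')
        exact ⟨u, fun _ _ => ⟨hlu, by rw [c₂ u huR]; exact hu⟩⟩
    · exact ⟨l, fun h1 h2 => absurd ⟨h1, h2⟩ h⟩
  choose ν hν using hnb
  let c : V → Bool := fun v => if v ∈ P ∧ m₂ v = v then !(c₀ (ν v)) else c₀ v
  have hP₁ : ∀ l ∈ P, m₁ l = l := by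
    intro l hl
    have hlI : l ∈ I := hLI (hPL hl)
    rw [d₁ l (fun h => ((memR₁ l).1 h).1 hlI)]
    exact i2 l (fun h => (mem_sdiff.1 h).2 hl)
      (fun h => Finset.disjoint_left.1 hIA hlI (mem_filter.1 h).1)
  have hc₁' : ∀ v, m₁ v ≠ v → c (m₁ v) ≠ c v := by
    intro v hv
    have n1 : ¬ (v ∈ P ∧ m₂ v = v) := fun h => hv (hP₁ v h.1)
    have n2 : ¬ (m₁ v ∈ P ∧ m₂ (m₁ v) = m₁ v) := fun h => by
      have := hP₁ _ h.1
      rw [a₁] at this
      exact hv this.symm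
    simp only [c, if_neg n1, if_neg n2]
    exact hc₁ v hv
  have hc₂' : ∀ v, m₂ v ≠ v → c (m₂ v) ≠ c v := by
    intro v hv
    have n1 : ¬ (v ∈ P ∧ m₂ v = v) := fun h => hv h.2
    have n2 : ¬ (m₂ v ∈ P ∧ m₂ (m₂ v) = m₂ v) := fun h => by
      have := h.2
      rw [a₂] at this
      exact hv this.symm
    simp only [c, if_neg n1, if_neg n2]
    exact hc₂ v hv
  have hPc : ∀ v ∈ P, m₂ v = v → ∃ u, G₂.Adj v u ∧ c u ≠ c v := by
    intro v hv hm
    obtain ⟨h1, h2⟩ := hν v hv hm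
    refine ⟨ν v, h1, ?_⟩
    have n1 : ¬ (ν v ∈ P ∧ m₂ (ν v) = ν v) := fun h => h2 h.2
    simp only [c, if_neg n1, if_pos (And.intro hv hm)]
    cases c₀ (ν v) <;> simp
  -- the first graph
  have f₁ : ∀ v, m₁ v = v → v ∈ D ∪ W ∨ (∃ u ∈ D ∪ W, G₁.Adj v u) ∨
      (∃ u w, m₁ u = w ∧ u ≠ w ∧ G₁.Adj v u ∧ G₁.Adj v w) ∨ ∃ u, G₁.Adj v u ∧ c u ≠ c v := by
    intro v hv
    by_cases hvR : v ∈ (I ∪ A)ᶜ
    · rw [c₁ v hvR] at hv
      rcases r4 v hvR hv with h' | ⟨u, w, huw, hne, hu, hw⟩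
      · exact Or.inl (mem_union_left _ h')
      · right; right; left
        have huR : u ∈ (I ∪ A)ᶜ := by
          by_contra h'
          exact hne ((r2 u h').symm.trans huw)
        exact ⟨u, w, by rw [c₁ u huR]; exact huw, hne, hu, hw⟩
    · rw [d₁ v hvR] at hv
      have hnR : v ∈ I ∨ v ∈ A := by
        by_contra h'
        push Not at h'
        exact hvR ((memR₁ v).2 h')
      rcases hnR with hvI | hvA
      · by_cases hvL : v ∈ L
        · rcases (hLmem v hvI).1 hvL with h | h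
          · exact Or.inr (Or.inl ⟨e₁ v, mem_union_right _ h, (he v hvI).2.2.2.1⟩)
          · exact Or.inr (Or.inl ⟨e₂ v, mem_union_right _ h, (he v hvI).2.2.2.2⟩)
        · by_cases h1 : v ∈ D
          · exact Or.inl (mem_union_left _ h1)
          · by_cases h2 : e₁ v ∈ D
            · exact Or.inr (Or.inl ⟨e₁ v, mem_union_left _ h2, (he v hvI).2.2.2.1⟩)
            · by_cases h3 : e₂ v ∈ D
              · exact Or.inr (Or.inl ⟨e₂ v, mem_union_left _ h3, (he v hvI).2.2.2.2⟩)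
              · exact absurd hv (i5 v (mem_filter.2 ⟨mem_sdiff.2 ⟨hvI, hvL⟩, h1, h2, h3⟩))
      · by_cases h1 : v ∈ W
        · exact Or.inl (mem_union_right _ h1)
        · by_cases h2 : v ∈ D
          · exact Or.inl (mem_union_left _ h2)
          · exact absurd hv (i4 v (mem_filter.2 ⟨hvA, h1, h2⟩))
  -- the second graph
  have f₂ : ∀ v, m₂ v = v → v ∈ D ∪ W ∨ (∃ u ∈ D ∪ W, G₂.Adj v u) ∨
      (∃ u w, m₂ u = w ∧ u ≠ w ∧ G₂.Adj v u ∧ G₂.Adj v w) ∨ ∃ u, G₂.Adj v u ∧ c u ≠ c v := by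
    intro v hv
    by_cases hvP : v ∈ P
    · exact Or.inr (Or.inr (Or.inr (hPc v hvP hv)))
    by_cases hvR : v ∈ (I₂ ∪ A₂)ᶜ
    · rw [c₂ v hvR] at hv
      rcases t4 v hvR hv with h' | ⟨u, w, huw, hne, hu, hw⟩
      · rcases mem_union.1 h' with h' | h'
        · exact Or.inl h'
        · exact absurd h' hvP
      · right; right; left
        have huR : u ∈ (I₂ ∪ A₂)ᶜ := by
          by_contra h'
          exact hne ((t2 u h').symm.trans huw)
        exact ⟨u, w, by rw [c₂ u huR]; exact huw, hne, hu, hw⟩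
    · have hnR : v ∈ I₂ ∨ v ∈ A₂ := by
        by_contra h'
        push Not at h'
        exact hvR ((memR₂ v).2 h')
      rcases hnR with hvI | hvA
      · have hvQ : v ∉ Q₂ := fun h => j5 v h (by rw [← d₂ v hvR]; exact hv)
        rcases hrest v hvI hvQ with h | h | h
        · exact absurd h hvP
        · exact Or.inl h
        · exact Or.inr (Or.inl h)
      · exact absurd hv (hA₂m v hvA)
  -- the end
  let E := D ∪ W
  let T : Bool → Finset V := fun x => univ.filter (fun v => v ∉ E ∧ c v = x)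
  have hT : (T true).card + (T false).card + E.card = Fintype.card V := by
    have h1 : (T true ∪ T false) ∪ E = univ := by
      ext v
      simp only [T, mem_union, mem_filter, mem_univ, true_and, iff_true]
      by_cases hv : v ∈ E
      · exact Or.inr hv
      · left
        cases h : c v
        · exact Or.inr ⟨hv, rfl⟩
        · exact Or.inl ⟨hv, rfl⟩
    have d1 : Disjoint (T true) (T false) := by
      rw [Finset.disjoint_left]
      intro v hv hv'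
      have e1 := (mem_filter.1 hv).2.2
      have e2 := (mem_filter.1 hv').2.2
      rw [e1] at e2
      exact absurd e2 (by simp)
    have d2 : Disjoint (T true ∪ T false) E := by
      rw [Finset.disjoint_left]
      intro v hv hvD
      rcases mem_union.1 hv with hv | hv
      · exact (mem_filter.1 hv).2.1 hvD
      · exact (mem_filter.1 hv).2.1 hvD
    have := congrArg Finset.card h1
    rw [Finset.card_union_of_disjoint d2, Finset.card_union_of_disjoint d1,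
      Finset.card_univ] at this
    exact this
  obtain ⟨x, hx⟩ : ∃ x, Fintype.card V ≤ 2 * (T x).card + E.card := by
    by_cases h : (T false).card ≤ (T true).card
    · exact ⟨true, by omega⟩
    · exact ⟨false, by omega⟩
  refine ⟨(T x)ᶜ, ?_, fun v => ⟨dominates_of_colouring G₁ E m₁ c x b₁ hc₁' f₁ v,
    dominates_of_colouring G₂ E m₂ c x b₂ hc₂' f₂ v⟩⟩
  have h1 : (T x)ᶜ.card = Fintype.card V - (T x).card := Finset.card_compl _
  have h2 : (T x).card ≤ Fintype.card V := Finset.card_le_univ _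
  have h3 : 5 * E.card ≤ Fintype.card V := hD
  omega

end Pool.Agent.Y526.Dom
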