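import Mathlib

/-!
# Critical sets: leaves, hubs and the rest
-/

set_option autoImplicit false

namespace Pool.Agent.Y526.Dom

open Finset

variable {V : Type*} [Fintype V] [DecidableEq V]

open Classical in
/-- The set of all neighbours of the elements of `J`. -/
noncomputable def nbhd (G : SimpleGraph V) (J : Finset V) : Finset V :=
  univ.filter (fun v => ∃ u ∈ J, G.Adj u v)

lemma mem_nbhd {G : SimpleGraph V} {J : Finset V} {v : V} :
    v ∈ nbhd G J ↔ ∃ u ∈ J, G.Adj u v := by
  simp [nbhd]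

lemma nbhd_mono {G : SimpleGraph V} {J K : Finset V} (h : J ⊆ K) : nbhd G J ⊆ nbhd G K := by
  intro v hv
  obtain ⟨u, hu, huv⟩ := mem_nbhd.1 hv
  exact mem_nbhd.2 ⟨u, h hu, huv⟩

lemma nbhd_union (G : SimpleGraph V) (J K : Finset V) :
    nbhd G (J ∪ K) = nbhd G J ∪ nbhd G K := by
  ext v
  simp only [mem_nbhd, mem_union]
  constructor
  · rintro ⟨u, hu | hu, huv⟩
    · exact Or.inl ⟨u, hu, huv⟩
    · exact Or.inr ⟨u, hu, huv⟩
  · rintro (⟨u, hu, huv⟩ | ⟨u, hu, huv⟩)
    · exact ⟨u, Or.inl hu, huv⟩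
    · exact ⟨u, Or.inr hu, huv⟩

/-- A set `I` (leaves) without inner edges such that the neighbours `A` of `I` (hubs) can be
matched into `I`, and the rest can be matched into itself in the sense of Hall. -/
theorem exists_critical (G : SimpleGraph V) : ∃ I : Finset V,
    Disjoint I (nbhd G I) ∧
    (∀ Z ⊆ nbhd G I, Z.card ≤ (nbhd G Z ∩ I).card) ∧
    (∀ X : Finset V, Disjoint X (I ∪ nbhd G I) →
      X.card ≤ (nbhd G X \ (I ∪ nbhd G I)).card) := by
  classical
  obtain ⟨I₀, -, hI₀⟩ := Finset.exists_max_image (univ : Finset (Finset V))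
    (fun J => (J.card : ℤ) - (nbhd G J).card) ⟨∅, mem_univ _⟩
  have hmax₀ : ∀ J : Finset V, (J.card : ℤ) - (nbhd G J).card ≤ I₀.card - (nbhd G I₀).card :=
    fun J => hI₀ J (mem_univ _)
  set I := I₀ \ nbhd G I₀ with hI
  have hI_sub : I ⊆ I₀ := sdiff_subset
  have hdisj₀ : Disjoint I₀ (nbhd G I) := by
    rw [Finset.disjoint_left]
    intro v hv hv'
    obtain ⟨u, hu, huv⟩ := mem_nbhd.1 hv'
    have : u ∈ nbhd G I₀ := mem_nbhd.2 ⟨v, hv, huv.symm⟩
    exact (mem_sdiff.1 hu).2 this
  have hdisj : Disjoint I (nbhd G I) := hdisj₀.mono_left hI_sub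
  -- `I` is also a maximiser
  have hmaxI : ∀ J : Finset V, (J.card : ℤ) - (nbhd G J).card ≤ I.card - (nbhd G I).card := by
    intro J
    refine (hmax₀ J).trans ?_
    have h1 : (I.card : ℤ) = I₀.card - (I₀ ∩ nbhd G I₀).card := by
      have := Finset.card_sdiff_add_card_inter I₀ (nbhd G I₀)
      rw [← hI] at this
      omega
    have h2 : (nbhd G I).card ≤ (nbhd G I₀ \ I₀).card := by
      refine Finset.card_le_card ?_
      intro v hv
      exact mem_sdiff.2 ⟨nbhd_mono hI_sub hv, fun h => Finset.disjoint_left.1 hdisj₀ h hv⟩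
    have h3 : ((nbhd G I₀ \ I₀).card : ℤ) = (nbhd G I₀).card - (I₀ ∩ nbhd G I₀).card := by
      have := Finset.card_sdiff_add_card_inter (nbhd G I₀) I₀
      rw [Finset.inter_comm] at this
      omega
    omega
  refine ⟨I, hdisj, ?_, ?_⟩
  · intro Z hZ
    have h := hmaxI (I \ nbhd G Z)
    have h1 : ((I \ nbhd G Z).card : ℤ) = I.card - (nbhd G Z ∩ I).card := by
      have := Finset.card_sdiff_add_card_inter I (nbhd G Z)
      rw [Finset.inter_comm I] at this
      omega
    have h2 : (nbhd G (I \ nbhd G Z)).card ≤ (nbhd G I \ Z).card := by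
      refine Finset.card_le_card ?_
      intro v hv
      refine mem_sdiff.2 ⟨nbhd_mono sdiff_subset hv, fun hvZ => ?_⟩
      obtain ⟨u, hu, huv⟩ := mem_nbhd.1 hv
      exact (mem_sdiff.1 hu).2 (mem_nbhd.2 ⟨v, hvZ, huv.symm⟩)
    have h3 : ((nbhd G I \ Z).card : ℤ) = (nbhd G I).card - Z.card := by
      have := Finset.card_sdiff_of_subset hZ
      have h4 := Finset.card_le_card hZ
      omega
    omega
  · intro X hX
    have h := hmaxI (I ∪ X)
    have hIX : Disjoint I X := (hX.mono_right subset_union_left).symm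
    have h1 : ((I ∪ X).card : ℤ) = I.card + X.card := by
      rw [Finset.card_union_of_disjoint hIX]; push_cast; ring
    have hXI : Disjoint (nbhd G X) I := by
      rw [Finset.disjoint_left]
      intro v hv hvI
      obtain ⟨u, hu, huv⟩ := mem_nbhd.1 hv
      have : u ∈ nbhd G I := mem_nbhd.2 ⟨v, hvI, huv.symm⟩
      exact Finset.disjoint_left.1 hX hu (mem_union_right _ this)
    have h2 : nbhd G (I ∪ X) = nbhd G I ∪ (nbhd G X \ (I ∪ nbhd G I)) := by
      rw [nbhd_union]
      ext v
      simp only [mem_union, mem_sdiff, not_or]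
      constructor
      · rintro (h | h)
        · exact Or.inl h
        · by_cases hv : v ∈ nbhd G I
          · exact Or.inl hv
          · exact Or.inr ⟨h, fun hI' => Finset.disjoint_left.1 hXI h hI', hv⟩
      · rintro (h | h)
        · exact Or.inl h
        · exact Or.inr h.1
    have h3 : ((nbhd G (I ∪ X)).card : ℤ) =
        (nbhd G I).card + (nbhd G X \ (I ∪ nbhd G I)).card := by
      rw [h2, Finset.card_union_of_disjoint]
      · push_cast; ring
      · rw [Finset.disjoint_right]
        intro v hv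
        exact fun h => (mem_sdiff.1 hv).2 (mem_union_right _ h)
    omega

/-- Matching the hubs into the leaves. -/
theorem exists_hub_partner (G : SimpleGraph V) (I : Finset V)
    (h : ∀ Z ⊆ nbhd G I, Z.card ≤ (nbhd G Z ∩ I).card) :
    ∃ μ : V → V, (∀ a ∈ nbhd G I, μ a ∈ I ∧ G.Adj a (μ a)) ∧
      Set.InjOn μ (nbhd G I : Set V) := by
  classical
  have hall := (Finset.all_card_le_biUnion_card_iff_exists_injective
    (fun a : {x // x ∈ nbhd G I} => nbhd G {a.1} ∩ I)).1 (by
      intro s
      have h1 : (s.map (Function.Embedding.subtype _)).card = s.card := by simp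
      have h2 := h (s.map (Function.Embedding.subtype _)) (by
        intro v hv
        simp only [Finset.mem_map, Function.Embedding.coe_subtype] at hv
        obtain ⟨a, -, rfl⟩ := hv
        exact a.2)
      rw [h1] at h2
      refine h2.trans (Finset.card_le_card ?_)
      intro v hv
      rw [mem_inter] at hv
      obtain ⟨u, hu, huv⟩ := mem_nbhd.1 hv.1
      simp only [Finset.mem_map, Function.Embedding.coe_subtype] at hu
      obtain ⟨a, ha, rfl⟩ := hu
      rw [mem_biUnion]
      exact ⟨a, ha, mem_inter.2 ⟨mem_nbhd.2 ⟨a.1, mem_singleton_self _, huv⟩, hv.2⟩⟩)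
  obtain ⟨f, hf, hf'⟩ := hall
  refine ⟨fun v => if hv : v ∈ nbhd G I then f ⟨v, hv⟩ else v, ?_, ?_⟩
  · intro a ha
    have := hf' ⟨a, ha⟩
    rw [mem_inter, mem_nbhd] at this
    simp only [ha, dif_pos]
    obtain ⟨⟨u, hu, huv⟩, h2⟩ := this
    rw [mem_singleton] at hu
    subst hu
    exact ⟨h2, huv⟩
  · intro a ha b hb hab
    have ha' : a ∈ nbhd G I := ha
    have hb' : b ∈ nbhd G I := hb
    simp only [ha', hb', dif_pos] at hab
    exact congrArg Subtype.val (hf hab)

/-- A permutation of the rest which moves along edges. -/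
theorem exists_rest_perm (G : SimpleGraph V) (R : Finset V)
    (h : ∀ X ⊆ R, X.card ≤ (nbhd G X ∩ R).card) :
    ∃ σ : Equiv.Perm V, (∀ v, v ∈ R ↔ σ v ≠ v) ∧ ∀ v ∈ R, G.Adj v (σ v) := by
  classical
  have hall := (Finset.all_card_le_biUnion_card_iff_exists_injective
    (fun a : {x // x ∈ R} => nbhd G {a.1} ∩ R)).1 (by
      intro s
      have h1 : (s.map (Function.Embedding.subtype _)).card = s.card := by simp
      have h2 := h (s.map (Function.Embedding.subtype _)) (by
        intro v hv
        simp only [Finset.mem_map, Function.Embedding.coe_subtype] at hv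
        obtain ⟨a, -, rfl⟩ := hv
        exact a.2)
      rw [h1] at h2
      refine h2.trans (Finset.card_le_card ?_)
      intro v hv
      rw [mem_inter] at hv
      obtain ⟨u, hu, huv⟩ := mem_nbhd.1 hv.1
      simp only [Finset.mem_map, Function.Embedding.coe_subtype] at hu
      obtain ⟨a, ha, rfl⟩ := hu
      rw [mem_biUnion]
      exact ⟨a, ha, mem_inter.2 ⟨mem_nbhd.2 ⟨a.1, mem_singleton_self _, huv⟩, hv.2⟩⟩)
  obtain ⟨f, hf, hf'⟩ := hall
  have hf1 : ∀ a : {x // x ∈ R}, f a ∈ R ∧ G.Adj a.1 (f a) := by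
    intro a
    have := hf' a
    rw [mem_inter, mem_nbhd] at this
    obtain ⟨⟨u, hu, huv⟩, h2⟩ := this
    rw [mem_singleton] at hu
    subst hu
    exact ⟨h2, huv⟩
  let g : V → V := fun v => if hv : v ∈ R then f ⟨v, hv⟩ else v
  have hgR : ∀ v (hv : v ∈ R), g v = f ⟨v, hv⟩ := fun v hv => by simp [g, hv]
  have hgN : ∀ v, v ∉ R → g v = v := fun v hv => by simp [g, hv]
  have hg : Function.Injective g := by
    intro a b hab
    by_cases ha : a ∈ R
    · by_cases hb : b ∈ R
      · rw [hgR a ha, hgR b hb] at hab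
        exact congrArg Subtype.val (hf hab)
      · rw [hgR a ha, hgN b hb] at hab
        exact absurd (hab ▸ (hf1 ⟨a, ha⟩).1) hb
    · by_cases hb : b ∈ R
      · rw [hgR b hb, hgN a ha] at hab
        exact absurd (hab.symm ▸ (hf1 ⟨b, hb⟩).1) ha
      · rwa [hgN a ha, hgN b hb] at hab
  refine ⟨Equiv.ofBijective g (Finite.injective_iff_bijective.1 hg), ?_, ?_⟩
  · intro v
    simp only [Equiv.ofBijective_apply]
    constructor
    · intro hv
      rw [hgR v hv]
      exact (hf1 ⟨v, hv⟩).2.ne'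
    · intro hv
      by_contra h'
      exact hv (hgN v h')
  · intro v hv
    simp only [Equiv.ofBijective_apply]
    rw [hgR v hv]
    exact (hf1 ⟨v, hv⟩).2

end Pool.Agent.Y526.Dom
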