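import Pool.Agent.Y526.Dom.Normal

/-!
# Counting leaves and hubs
-/

set_option autoImplicit false

namespace Pool.Agent.Y526.Dom

open Finset

variable {V : Type*} [Fintype V] [DecidableEq V]

/-- If every hub belongs to at most three leaves of `K`, every set `J ⊆ K` of leaves has at least
`(2 / 3) |J|` hubs. -/
theorem two_mul_le_three (K : Finset V) (e₁ e₂ : V → V)
    (hne : ∀ l ∈ K, e₁ l ≠ e₂ l)
    (hdeg : ∀ l ∈ K, ∀ a, (a = e₁ l ∨ a = e₂ l) →
      (K.filter (fun l => e₁ l = a ∨ e₂ l = a)).card ≤ 3)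
    (J : Finset V) (hJ : J ⊆ K) :
    2 * J.card ≤ 3 * (J.biUnion (fun l => {e₁ l, e₂ l})).card := by
  classical
  have h := Finset.card_mul_le_card_mul (s := J) (t := J.biUnion (fun l => {e₁ l, e₂ l}))
    (m := 2) (n := 3) (fun l a => e₁ l = a ∨ e₂ l = a) (by
      intro l hl
      have : ({e₁ l, e₂ l} : Finset V) ⊆
          Finset.bipartiteAbove (fun l a => e₁ l = a ∨ e₂ l = a)
            (J.biUnion (fun l => {e₁ l, e₂ l})) l := by
        intro a ha
        refine mem_filter.2 ⟨mem_biUnion.2 ⟨l, hl, ha⟩, ?_⟩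
        simp only [mem_insert, mem_singleton] at ha
        rcases ha with rfl | rfl
        · exact Or.inl rfl
        · exact Or.inr rfl
      refine le_trans ?_ (Finset.card_le_card this)
      rw [Finset.card_pair (hne l (hJ hl))]) (by
      intro a ha
      obtain ⟨l, hl, hla⟩ := mem_biUnion.1 ha
      simp only [mem_insert, mem_singleton] at hla
      refine le_trans (Finset.card_le_card ?_) (hdeg l (hJ hl) a hla)
      intro l' hl'
      have := mem_filter.1 hl'
      exact mem_filter.2 ⟨hJ this.1, this.2⟩)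
  omega

/-- Double counting of the leaves of a set of hubs. -/
theorem two_mul_hubs_le (I L Z : Finset V) (e₁ e₂ : V → V)
    (hdeg : ∀ a ∈ Z, 2 ≤ (I.filter (fun l => e₁ l = a ∨ e₂ l = a)).card)
    (hL : ∀ l ∈ L, ¬ (e₁ l ∈ Z ∧ e₂ l ∈ Z)) :
    2 * Z.card ≤ 2 * ((Z.biUnion (fun a => I.filter (fun l => e₁ l = a ∨ e₂ l = a))) \ L).card +
      ((Z.biUnion (fun a => I.filter (fun l => e₁ l = a ∨ e₂ l = a))) ∩ L).card := by
  classical
  set Y := Z.biUnion (fun a => I.filter (fun l => e₁ l = a ∨ e₂ l = a)) with hY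
  have h1 : ∑ a ∈ Z, (Y.filter (fun l => e₁ l = a ∨ e₂ l = a)).card =
      ∑ l ∈ Y, (Z.filter (fun a => e₁ l = a ∨ e₂ l = a)).card := by
    have := Finset.sum_card_bipartiteAbove_eq_sum_card_bipartiteBelow (s := Z) (t := Y)
      (fun a l => e₁ l = a ∨ e₂ l = a)
    exact this
  have h2 : 2 * Z.card ≤ ∑ a ∈ Z, (Y.filter (fun l => e₁ l = a ∨ e₂ l = a)).card := by
    have : ∑ _a ∈ Z, 2 ≤ ∑ a ∈ Z, (Y.filter (fun l => e₁ l = a ∨ e₂ l = a)).card := by
      refine Finset.sum_le_sum (fun a ha => (hdeg a ha).trans (Finset.card_le_card ?_))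
      intro l hl
      exact mem_filter.2 ⟨mem_biUnion.2 ⟨a, ha, hl⟩, (mem_filter.1 hl).2⟩
    rw [Finset.sum_const, smul_eq_mul] at this
    omega
  have h3 : ∀ l, (Z.filter (fun a => e₁ l = a ∨ e₂ l = a)).card ≤ 2 := by
    intro l
    have : Z.filter (fun a => e₁ l = a ∨ e₂ l = a) ⊆ {e₁ l, e₂ l} := by
      intro a ha
      rcases (mem_filter.1 ha).2 with h | h
      · rw [← h]; simp
      · rw [← h]; simp
    exact (Finset.card_le_card this).trans Finset.card_le_two
  have h4 : ∀ l ∈ L, (Z.filter (fun a => e₁ l = a ∨ e₂ l = a)).card ≤ 1 := by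
    intro l hl
    refine Finset.card_le_one.2 ?_
    intro a ha b hb
    have ha' := mem_filter.1 ha
    have hb' := mem_filter.1 hb
    rcases ha'.2 with h | h <;> rcases hb'.2 with h' | h'
    · exact h.symm.trans h'
    · exact absurd ⟨by rw [h]; exact ha'.1, by rw [h']; exact hb'.1⟩ (hL l hl)
    · exact absurd ⟨by rw [h']; exact hb'.1, by rw [h]; exact ha'.1⟩ (hL l hl)
    · exact h.symm.trans h'
  have h5 : ∑ l ∈ Y, (Z.filter (fun a => e₁ l = a ∨ e₂ l = a)).card =
      ∑ l ∈ Y \ L, (Z.filter (fun a => e₁ l = a ∨ e₂ l = a)).card +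
      ∑ l ∈ Y ∩ L, (Z.filter (fun a => e₁ l = a ∨ e₂ l = a)).card := by
    rw [← Finset.sum_union]
    · congr 1
      rw [Finset.sdiff_union_inter]
    · rw [Finset.disjoint_left]
      intro l hl hl'
      exact (mem_sdiff.1 hl).2 (mem_inter.1 hl').2
  have h6 : ∑ l ∈ Y \ L, (Z.filter (fun a => e₁ l = a ∨ e₂ l = a)).card ≤ 2 * (Y \ L).card := by
    have := Finset.sum_le_sum (s := Y \ L) (fun l _ => h3 l)
    rw [Finset.sum_const, smul_eq_mul] at this
    omega
  have h7 : ∑ l ∈ Y ∩ L, (Z.filter (fun a => e₁ l = a ∨ e₂ l = a)).card ≤ (Y ∩ L).card := by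
    have := Finset.sum_le_sum (s := Y ∩ L) (fun l hl => h4 l (mem_inter.1 hl).2)
    rw [Finset.sum_const, smul_eq_mul] at this
    omega
  omega

/-- Two matchings of disjoint parts form a matching. -/
theorem exists_combined (G : SimpleGraph V) (R : Finset V) (mI mR : V → V)
    (i1 : ∀ v, mI (mI v) = v) (i2 : ∀ v ∈ R, mI v = v) (i3 : ∀ v, mI v ≠ v → G.Adj v (mI v))
    (r1 : ∀ v, mR (mR v) = v) (r2 : ∀ v, v ∉ R → mR v = v)
    (r3 : ∀ v, mR v ≠ v → G.Adj v (mR v)) :
    ∃ m : V → V, (∀ v, m (m v) = v) ∧ (∀ v, m v ≠ v → G.Adj v (m v)) ∧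
      (∀ v ∈ R, m v = mR v) ∧ (∀ v, v ∉ R → m v = mI v) := by
  classical
  have mRR : ∀ v, v ∈ R → mR v ∈ R := by
    intro v hv
    by_contra h'
    have := r2 _ h'
    rw [r1] at this
    exact h' (this ▸ hv)
  have mIN : ∀ v, v ∉ R → mI v ∉ R := by
    intro v hv h'
    have := i2 _ h'
    rw [i1] at this
    exact hv (this ▸ h')
  refine ⟨fun v => if v ∈ R then mR v else mI v, ?_, ?_, ?_, ?_⟩
  · intro v
    by_cases hv : v ∈ R
    · simp only [if_pos hv, if_pos (mRR v hv), r1]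
    · simp only [if_neg hv, if_neg (mIN v hv), i1]
  · intro v hv
    by_cases hvR : v ∈ R
    · simp only [if_pos hvR] at hv ⊢; exact r3 v hv
    · simp only [if_neg hvR] at hv ⊢; exact i3 v hv
  · intro v hv
    simp only [if_pos hv]
  · intro v hv
    simp only [if_neg hv]

end Pool.Agent.Y526.Dom
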