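import Pool.Agent.Y526.Dom.Basic

/-!
# A normal form of graphs of minimum degree two: a permutation and a subdivided multigraph
-/

set_option autoImplicit false

namespace Pool.Agent.Y526.Dom

open Finset

variable {V : Type*} [Fintype V] [DecidableEq V]

/-- In a graph of minimum degree two there are disjoint sets `I` (leaves) and `A` (hubs) and for
every leaf two different neighbours in `A` such that every hub belongs to at least two leaves, and
the rest has a permutation that moves along edges. -/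
theorem exists_normal_form (G : SimpleGraph V)
    (hδ : ∀ v, ∃ a b, a ≠ b ∧ G.Adj v a ∧ G.Adj v b) :
    ∃ (A I : Finset V) (σ : Equiv.Perm V) (e₁ e₂ : V → V),
      Disjoint I A ∧ (∀ v, v ∈ (I ∪ A)ᶜ ↔ σ v ≠ v) ∧ (∀ v ∈ (I ∪ A)ᶜ, G.Adj v (σ v)) ∧
      (∀ l ∈ I, e₁ l ∈ A ∧ e₂ l ∈ A ∧ e₁ l ≠ e₂ l ∧ G.Adj l (e₁ l) ∧ G.Adj l (e₂ l)) ∧
      (∀ a ∈ A, 2 ≤ (I.filter (fun l => e₁ l = a ∨ e₂ l = a)).card) := by
  classical
  obtain ⟨I₀, hdis, hA, hR⟩ := exists_critical G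
  set A₀ := nbhd G I₀ with hAdef
  obtain ⟨μ, hμ, hμi⟩ := exists_hub_partner G I₀ hA
  obtain ⟨σ₀, hσR, hσ⟩ := exists_rest_perm G (I₀ ∪ A₀)ᶜ (by
    intro X hX
    have h1 : Disjoint X (I₀ ∪ A₀) := by
      rw [Finset.disjoint_left]
      intro v hv
      exact Finset.mem_compl.1 (hX hv)
    refine (hR X h1).trans (Finset.card_le_card ?_)
    intro v hv
    rw [mem_sdiff] at hv
    exact mem_inter.2 ⟨hv.1, Finset.mem_compl.2 hv.2⟩)
  -- two neighbours for every leaf, one of them the hub which has it as a partner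
  have hch : ∀ l, ∃ x y, x ≠ y ∧ G.Adj l x ∧ G.Adj l y ∧ ∀ a ∈ A₀, μ a = l → x = a ∨ y = a := by
    intro l
    obtain ⟨x, y, hxy, hx, hy⟩ := hδ l
    by_cases h : ∃ a ∈ A₀, μ a = l
    · obtain ⟨a, ha, hal⟩ := h
      have hla : G.Adj l a := by rw [← hal]; exact (hμ a ha).2.symm
      by_cases hxa : x = a
      · refine ⟨a, y, by rw [← hxa]; exact hxy, hla, hy, ?_⟩
        intro a' ha' h'
        exact Or.inl (hμi ha ha' (hal.trans h'.symm))
      · refine ⟨a, x, fun h => hxa h.symm, hla, hx, ?_⟩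
        intro a' ha' h'
        exact Or.inl (hμi ha ha' (hal.trans h'.symm))
    · exact ⟨x, y, hxy, hx, hy, fun a ha h' => absurd ⟨a, ha, h'⟩ h⟩
  choose e₁ e₂ he hadj₁ hadj₂ hμe using hch
  -- the candidates
  let good : Finset V × Finset V → Prop := fun p =>
    p.1 ⊆ A₀ ∧ p.2 ⊆ I₀ ∧ (∀ l ∈ p.2, e₁ l ∈ p.1 ∧ e₂ l ∈ p.1) ∧ (∀ a ∈ p.1, μ a ∈ p.2) ∧
      (∀ a ∈ A₀, a ∉ p.1 → μ a ∉ p.2) ∧ (∀ l ∈ I₀, l ∉ p.2 → ∃ a ∈ A₀, a ∉ p.1 ∧ μ a = l)
  have hg₀ : good (A₀, I₀) := by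
    refine ⟨subset_rfl, subset_rfl, ?_, fun a ha => (hμ a ha).1, fun a ha h => absurd ha h,
      fun l hl h => absurd hl h⟩
    intro l hl
    exact ⟨mem_nbhd.2 ⟨l, hl, hadj₁ l⟩, mem_nbhd.2 ⟨l, hl, hadj₂ l⟩⟩
  obtain ⟨⟨A, I⟩, hp, hmin⟩ := Finset.exists_min_image
    ((univ : Finset (Finset V × Finset V)).filter good) (fun p => p.1.card)
    ⟨(A₀, I₀), mem_filter.2 ⟨mem_univ _, hg₀⟩⟩
  obtain ⟨gA, gI, ge, gμ, gμ', gback⟩ := (mem_filter.1 hp).2
  simp only at gA gI ge gμ gμ' gback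
  have hdeg : ∀ a ∈ A, 2 ≤ (I.filter (fun l => e₁ l = a ∨ e₂ l = a)).card := by
    intro a ha
    by_contra hlt
    push Not at hlt
    have hmem : μ a ∈ I.filter (fun l => e₁ l = a ∨ e₂ l = a) :=
      mem_filter.2 ⟨gμ a ha, hμe (μ a) a (gA ha) rfl⟩
    have honly : ∀ l ∈ I, (e₁ l = a ∨ e₂ l = a) → l = μ a := by
      intro l hl hl'
      have h1 : (I.filter (fun l => e₁ l = a ∨ e₂ l = a)).card ≤ 1 := by omega
      exact Finset.card_le_one.1 h1 l (mem_filter.2 ⟨hl, hl'⟩) (μ a) hmem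
    have hgood : good (A.erase a, I.erase (μ a)) := by
      refine ⟨(erase_subset _ _).trans gA, (erase_subset _ _).trans gI, ?_, ?_, ?_, ?_⟩
      · intro l hl
        rw [mem_erase] at hl
        refine ⟨mem_erase.2 ⟨fun h => hl.1 (honly l hl.2 (Or.inl h)), (ge l hl.2).1⟩,
          mem_erase.2 ⟨fun h => hl.1 (honly l hl.2 (Or.inr h)), (ge l hl.2).2⟩⟩
      · intro b hb
        rw [mem_erase] at hb
        exact mem_erase.2 ⟨fun h => hb.1 (hμi (gA hb.2) (gA ha) h), gμ b hb.2⟩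
      · intro b hb hb'
        by_cases hba : b = a
        · subst hba
          simp
        · have : b ∉ A := fun h => hb' (mem_erase.2 ⟨hba, h⟩)
          intro h
          exact gμ' b hb this (mem_of_mem_erase h)
      · intro l hl hl'
        by_cases hla : l = μ a
        · exact ⟨a, gA ha, by simp, hla.symm⟩
        · have : l ∉ I := fun h => hl' (mem_erase.2 ⟨hla, h⟩)
          obtain ⟨b, hb, hb', hbl⟩ := gback l hl this
          exact ⟨b, hb, fun h => hb' (mem_of_mem_erase h), hbl⟩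
    have := hmin (A.erase a, I.erase (μ a)) (mem_filter.2 ⟨mem_univ _, hgood⟩)
    simp only at this
    have h2 := Finset.card_erase_lt_of_mem ha
    omega
  -- the exchange of stripped hubs and their partners
  let t : V → V := fun v => if v ∈ A₀ ∧ v ∉ A then μ v else
    if h : ∃ a, (a ∈ A₀ ∧ a ∉ A) ∧ μ a = v then h.choose else v
  have t1 : ∀ v, (v ∈ A₀ ∧ v ∉ A) → t v = μ v := fun v h => by simp only [t, if_pos h]
  have t2 : ∀ a, (a ∈ A₀ ∧ a ∉ A) → t (μ a) = a := by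
    intro a ha
    have hn : ¬ (μ a ∈ A₀ ∧ μ a ∉ A) := fun h =>
      Finset.disjoint_left.1 hdis (hμ a ha.1).1 h.1
    have hex : ∃ b, (b ∈ A₀ ∧ b ∉ A) ∧ μ b = μ a := ⟨a, ha, rfl⟩
    have hs := hex.choose_spec
    simp only [t, if_neg hn, dif_pos hex]
    exact hμi hs.1.1 ha.1 hs.2
  have t3 : ∀ v, ¬ (v ∈ A₀ ∧ v ∉ A) → (¬ ∃ a, (a ∈ A₀ ∧ a ∉ A) ∧ μ a = v) → t v = v :=
    fun v h h' => by simp only [t, if_neg h, dif_neg h']
  have tinv : Function.Involutive t := by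
    intro v
    by_cases h : v ∈ A₀ ∧ v ∉ A
    · rw [t1 v h, t2 v h]
    · by_cases h' : ∃ a, (a ∈ A₀ ∧ a ∉ A) ∧ μ a = v
      · obtain ⟨a, ha, rfl⟩ := h'
        rw [t2 a ha, t1 a ha]
      · rw [t3 v h h', t3 v h h']
  let σ : Equiv.Perm V := σ₀.trans (tinv.toPerm t)
  have σdef : ∀ v, σ v = t (σ₀ v) := fun v => rfl
  have memR₀ : ∀ v, v ∈ (I₀ ∪ A₀)ᶜ ↔ v ∉ I₀ ∧ v ∉ A₀ := by
    intro v; simp
  have memR : ∀ v, v ∈ (I ∪ A)ᶜ ↔ v ∉ I ∧ v ∉ A := by
    intro v; simp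
  have hR₀R₀ : ∀ v ∈ (I₀ ∪ A₀)ᶜ, σ₀ v ∈ (I₀ ∪ A₀)ᶜ := by
    intro v hv
    rw [hσR]
    intro h
    exact (hσR v).1 hv (σ₀.injective h)
  have σR₀ : ∀ v ∈ (I₀ ∪ A₀)ᶜ, σ v = σ₀ v := by
    intro v hv
    have h1 := (memR₀ _).1 (hR₀R₀ v hv)
    rw [σdef, t3]
    · exact fun h => h1.2 h.1
    · rintro ⟨a, ha, hav⟩
      exact h1.1 (hav ▸ (hμ a ha.1).1)
  have σN : ∀ v, v ∉ (I₀ ∪ A₀)ᶜ → σ v = t v := by
    intro v hv
    have : σ₀ v = v := by
      by_contra h
      exact hv ((hσR v).2 h)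
    rw [σdef, this]
  refine ⟨A, I, σ, e₁, e₂, ?_, ?_, ?_, ?_, hdeg⟩
  · exact hdis.mono gI gA
  · intro v
    by_cases hv : v ∈ (I₀ ∪ A₀)ᶜ
    · have h1 := (memR₀ v).1 hv
      rw [σR₀ v hv]
      exact ⟨fun _ => (hσR v).1 hv, fun _ => (memR v).2 ⟨fun h => h1.1 (gI h), fun h => h1.2 (gA h)⟩⟩
    · rw [σN v hv, memR]
      by_cases h : v ∈ A₀ ∧ v ∉ A
      · rw [t1 v h]
        refine ⟨fun _ h' => ?_, fun _ => ⟨fun h' => ?_, h.2⟩⟩
        · have := (hμ v h.1).2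
          rw [h'] at this
          exact G.loopless.irrefl v this
        · exact Finset.disjoint_left.1 hdis (gI h') h.1
      · by_cases h' : ∃ a, (a ∈ A₀ ∧ a ∉ A) ∧ μ a = v
        · obtain ⟨a, ha, rfl⟩ := h'
          rw [t2 a ha]
          refine ⟨fun _ h' => ?_, fun _ => ⟨gμ' a ha.1 ha.2, fun h'' => ?_⟩⟩
          · have := (hμ a ha.1).2
            rw [← h'] at this
            exact G.loopless.irrefl a this
          · exact Finset.disjoint_left.1 hdis (hμ a ha.1).1 (gA h'')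
        · rw [t3 v h h']
          refine ⟨?_, fun h'' => absurd rfl h''⟩
          rintro ⟨hvI, hvA⟩
          exfalso
          have hv' : v ∈ I₀ ∨ v ∈ A₀ := by
            by_contra hh
            push Not at hh
            exact hv ((memR₀ v).2 hh)
          rcases hv' with hv' | hv'
          · obtain ⟨a, ha, ha', hal⟩ := gback v hv' hvI
            exact h' ⟨a, ⟨ha, ha'⟩, hal⟩
          · exact h ⟨hv', hvA⟩
  · intro v hv
    by_cases hv0 : v ∈ (I₀ ∪ A₀)ᶜ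
    · rw [σR₀ v hv0]
      exact hσ v hv0
    · rw [σN v hv0]
      have hv2 := (memR v).1 hv
      by_cases h : v ∈ A₀ ∧ v ∉ A
      · rw [t1 v h]
        exact (hμ v h.1).2
      · by_cases h' : ∃ a, (a ∈ A₀ ∧ a ∉ A) ∧ μ a = v
        · obtain ⟨a, ha, rfl⟩ := h'
          rw [t2 a ha]
          exact (hμ a ha.1).2.symm
        · exfalso
          have hv' : v ∈ I₀ ∨ v ∈ A₀ := by
            by_contra hh
            push Not at hh
            exact hv0 ((memR₀ v).2 hh)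
          rcases hv' with hv' | hv'
          · obtain ⟨a, ha, ha', hal⟩ := gback v hv' hv2.1
            exact h' ⟨a, ⟨ha, ha'⟩, hal⟩
          · exact h ⟨hv', hv2.2⟩
  · intro l hl
    exact ⟨(ge l hl).1, (ge l hl).2, he l, hadj₁ l, hadj₂ l⟩

/-- Hubs `W` such that at least `4 |W|` leaves belong to them and every other hub has at most three
leaves which do not belong to them. -/
theorem exists_deleted_hubs (A I : Finset V) (e₁ e₂ : V → V) :
    ∃ W ⊆ A, 4 * W.card ≤ (I.filter (fun l => e₁ l ∈ W ∨ e₂ l ∈ W)).card ∧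
      ∀ a ∈ A, a ∉ W → ((I.filter (fun l => ¬ (e₁ l ∈ W ∨ e₂ l ∈ W))).filter
        (fun l => e₁ l = a ∨ e₂ l = a)).card ≤ 3 := by
  classical
  let E : Finset V → Finset V := fun W => I.filter (fun l => e₁ l ∈ W ∨ e₂ l ∈ W)
  obtain ⟨W, hW, hmax⟩ := Finset.exists_max_image A.powerset
    (fun W => ((Fintype.card V : ℤ) + 1) * ((E W).card - 4 * W.card) + W.card)
    ⟨∅, by simp⟩
  have hWA : W ⊆ A := mem_powerset.1 hW
  refine ⟨W, hWA, ?_, ?_⟩
  · have h0 := hmax ∅ (by simp)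
    have hE0 : (E ∅).card = 0 := by simp [E]
    have h00 : ((Fintype.card V : ℤ) + 1) * (((E ∅).card : ℤ) - 4 * ((∅ : Finset V).card : ℤ)) +
        ((∅ : Finset V).card : ℤ) = 0 := by
      rw [hE0, Finset.card_empty]
      push_cast
      ring
    rw [h00] at h0
    have hWc : (W.card : ℤ) ≤ Fintype.card V := by exact_mod_cast Finset.card_le_univ W
    by_contra hlt
    have hlt0 : (E W).card < 4 * W.card := not_le.1 hlt
    have hlt' : ((E W).card : ℤ) - 4 * W.card ≤ -1 := by omega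
    have h5 : ((Fintype.card V : ℤ) + 1) * (((E W).card : ℤ) - 4 * W.card) ≤
        ((Fintype.card V : ℤ) + 1) * (-1) := mul_le_mul_of_nonneg_left hlt' (by positivity)
    linarith
  · intro a ha haW
    have h1 := hmax (insert a W) (mem_powerset.2 (insert_subset ha hWA))
    rw [Finset.card_insert_of_notMem haW] at h1
    have hE1 : E (insert a W) = E W ∪ ((I.filter (fun l => ¬ (e₁ l ∈ W ∨ e₂ l ∈ W))).filter
        (fun l => e₁ l = a ∨ e₂ l = a)) := by
      ext l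
      simp only [E, mem_filter, mem_insert, mem_union]
      tauto
    have hE2 : (E (insert a W)).card = (E W).card +
        ((I.filter (fun l => ¬ (e₁ l ∈ W ∨ e₂ l ∈ W))).filter
        (fun l => e₁ l = a ∨ e₂ l = a)).card := by
      rw [hE1, Finset.card_union_of_disjoint]
      rw [Finset.disjoint_left]
      intro l hl hl'
      exact (mem_filter.1 (mem_filter.1 hl').1).2 (mem_filter.1 hl).2
    rw [hE2] at h1
    push_cast at h1
    by_contra hgt
    have hgt' := not_le.1 hgt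
    have : (4 : ℤ) ≤ ((I.filter (fun l => ¬ (e₁ l ∈ W ∨ e₂ l ∈ W))).filter
        (fun l => e₁ l = a ∨ e₂ l = a)).card := by exact_mod_cast hgt'
    have hn : (0 : ℤ) ≤ Fintype.card V := by positivity
    nlinarith

end Pool.Agent.Y526.Dom
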