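import Pool.Agent.Y526.Dom.Count
import Pool.Agent.Y526.Dom.Drop

/-!
# The set which is always used, if one graph is arbitrary
-/

set_option autoImplicit false

namespace Pool.Agent.Y526.Dom

open Finset

variable {V : Type*} [Fintype V] [DecidableEq V]

theorem exists_always (G : SimpleGraph V) (A I W L K : Finset V) (e₁ e₂ : V → V)
    (B₁ B₂ : Finset (Finset V)) (I₂ : Finset V)
    (hIA : Disjoint I A) (hWA : W ⊆ A) (hLI : L ⊆ I) (hK : K = I \ L)
    (hL : ∀ l ∈ I, (l ∈ L ↔ e₁ l ∈ W ∨ e₂ l ∈ W)) (hLW : 4 * W.card ≤ L.card)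
    (he : ∀ l ∈ I, e₁ l ∈ A ∧ e₂ l ∈ A ∧ e₁ l ≠ e₂ l)
    (hdeg : ∀ a ∈ A, 2 ≤ (I.filter (fun l => e₁ l = a ∨ e₂ l = a)).card)
    (hdeg' : ∀ a ∈ A, a ∉ W → (K.filter (fun l => e₁ l = a ∨ e₂ l = a)).card ≤ 3)
    (hB₁ : ∀ b ∈ B₁, Disjoint b (I ∪ A) ∧ 5 ≤ b.card)
    (hB₁' : ∀ b ∈ B₁, ∀ c ∈ B₁, b ≠ c → Disjoint b c)
    (hB₂ : ∀ b ∈ B₂, Disjoint b (I₂ ∪ nbhd G I₂) ∧ 5 ≤ b.card)
    (hB₂' : ∀ b ∈ B₂, ∀ c ∈ B₂, b ≠ c → Disjoint b c)
    (hI₂ : Disjoint I₂ (nbhd G I₂))
    (hG : ∀ J : Finset V, Disjoint J (nbhd G J) → 4 * J.card ≤ 5 * (nbhd G J).card) :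
    ∃ D : Finset V, 5 * (D ∪ W).card ≤ Fintype.card V ∧ (∀ b ∈ B₁, (b ∩ D).Nonempty) ∧
      (∃ γ : V → V, (∀ v ∈ K, v ∉ D → e₁ v ∉ D → e₂ v ∉ D → γ v = e₁ v ∨ γ v = e₂ v) ∧
        Set.InjOn γ {v | v ∈ K ∧ v ∉ D ∧ e₁ v ∉ D ∧ e₂ v ∉ D}) ∧
      ∃ (P Q : Finset V) (γ μ : V → V), P ⊆ L ∧
        (∀ a ∈ A, a ∉ W → a ∉ D → μ a ∈ I ∧ (e₁ (μ a) = a ∨ e₂ (μ a) = a) ∧ μ a ∉ P) ∧
        Set.InjOn μ {a | a ∈ A ∧ a ∉ W ∧ a ∉ D} ∧ Q ⊆ I₂ ∧ (∀ v ∈ Q, G.Adj v (γ v)) ∧
        Set.InjOn γ (Q : Set V) ∧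
        (∀ v ∈ I₂, v ∉ Q → v ∈ P ∨ v ∈ D ∪ W ∨ ∃ u ∈ D ∪ W, G.Adj v u) ∧
        (∀ b ∈ B₂, (b ∩ (D ∪ W ∪ P)).Nonempty) := by
  classical
  have hKI : K ⊆ I := by rw [hK]; exact sdiff_subset
  have hWL : Disjoint W L := (hIA.mono hLI hWA).symm
  -- first system
  let s₁ : {v // v ∈ K} ⊕ {b // b ∈ B₁} → Finset V :=
    Sum.elim (fun v => {v.1, e₁ v.1, e₂ v.1}) (fun b => b.1)
  let h₁ : {v // v ∈ K} ⊕ {b // b ∈ B₁} → Finset V :=
    Sum.elim (fun v => {e₁ v.1, e₂ v.1}) (fun _ => ∅)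
  have P₁ : ∀ X : Finset ({v // v ∈ K} ⊕ {b // b ∈ B₁}),
      5 * X.card ≤ 1 * (X.biUnion s₁).card + 5 * (X.biUnion h₁).card := by
    intro X
    set J : Finset V := X.toLeft.map (Function.Embedding.subtype _) with hJ
    set C : Finset (Finset V) := X.toRight.map (Function.Embedding.subtype _) with hC
    have hX : X.card = J.card + C.card := by
      rw [hJ, hC, Finset.card_map, Finset.card_map, Finset.card_toLeft_add_card_toRight]
    have mJ : ∀ v, v ∈ J → ∃ h : v ∈ K, Sum.inl ⟨v, h⟩ ∈ X := by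
      intro v hv
      obtain ⟨w, hw, rfl⟩ := Finset.mem_map.1 hv
      exact ⟨w.2, Finset.mem_toLeft.1 hw⟩
    have mC : ∀ b, b ∈ C → ∃ h : b ∈ B₁, Sum.inr ⟨b, h⟩ ∈ X := by
      intro v hv
      obtain ⟨w, hw, rfl⟩ := Finset.mem_map.1 hv
      exact ⟨w.2, Finset.mem_toRight.1 hw⟩
    have hJK : J ⊆ K := fun v hv => (mJ v hv).1
    have c0 : 2 * J.card ≤ 3 * (J.biUnion (fun l => {e₁ l, e₂ l})).card := by
      refine two_mul_le_three K e₁ e₂ (fun l hl => (he l (hKI hl)).2.2) ?_ J hJK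
      intro l hl a ha
      have hlL : l ∉ L := by rw [hK] at hl; exact (mem_sdiff.1 hl).2
      rw [hL l (hKI hl)] at hlL
      push Not at hlL
      rcases ha with rfl | rfl
      · exact hdeg' _ (he l (hKI hl)).1 hlL.1
      · exact hdeg' _ (he l (hKI hl)).2.1 hlL.2
    set H := J.biUnion (fun l => {e₁ l, e₂ l}) with hH
    have hHA : H ⊆ A := by
      intro a ha
      obtain ⟨l, hl, hla⟩ := mem_biUnion.1 ha
      simp only [mem_insert, mem_singleton] at hla
      rcases hla with rfl | rfl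
      · exact (he l (hKI (hJK hl))).1
      · exact (he l (hKI (hJK hl))).2.1
    have c1 : ((J ∪ H) ∪ C.biUnion id).card ≤ (X.biUnion s₁).card := by
      refine Finset.card_le_card ?_
      intro v hv
      rcases mem_union.1 hv with hv | hv
      · rcases mem_union.1 hv with hv | hv
        · obtain ⟨h, hx⟩ := mJ v hv
          exact mem_biUnion.2 ⟨_, hx, by simp [s₁]⟩
        · obtain ⟨l, hl, hla⟩ := mem_biUnion.1 hv
          obtain ⟨h, hx⟩ := mJ l hl
          refine mem_biUnion.2 ⟨_, hx, ?_⟩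
          simp only [mem_insert, mem_singleton] at hla
          simp only [s₁, Sum.elim_inl, mem_insert, mem_singleton]
          exact Or.inr hla
      · obtain ⟨b, hb, hvb⟩ := mem_biUnion.1 hv
        obtain ⟨h, hx⟩ := mC b hb
        exact mem_biUnion.2 ⟨_, hx, hvb⟩
    have c2 : H.card ≤ (X.biUnion h₁).card := by
      refine Finset.card_le_card ?_
      intro v hv
      obtain ⟨l, hl, hla⟩ := mem_biUnion.1 hv
      obtain ⟨h, hx⟩ := mJ l hl
      exact mem_biUnion.2 ⟨_, hx, hla⟩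
    have d1 : Disjoint J H := hIA.mono (hJK.trans hKI) hHA
    have d2 : Disjoint (J ∪ H) (C.biUnion id) := by
      rw [Finset.disjoint_right]
      intro v hv
      obtain ⟨b, hb, hvb⟩ := mem_biUnion.1 hv
      intro hv'
      refine Finset.disjoint_left.1 (hB₁ b (mC b hb).1).1 hvb ?_
      rcases mem_union.1 hv' with h | h
      · exact mem_union_left _ (hKI (hJK h))
      · exact mem_union_right _ (hHA h)
    have c3 : 5 * C.card ≤ (C.biUnion id).card := by
      rw [Finset.card_biUnion]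
      · have : ∑ b ∈ C, 5 ≤ ∑ b ∈ C, (id b).card :=
          Finset.sum_le_sum (fun b hb => (hB₁ b (mC b hb).1).2)
        simpa [mul_comm] using this
      · intro b hb c hc hbc
        exact hB₁' b (mC b hb).1 c (mC c hc).1 hbc
    rw [Finset.card_union_of_disjoint d2, Finset.card_union_of_disjoint d1] at c1
    omega
  -- second system
  let J₀ : Finset V := I₂.filter (fun v => Disjoint ({v} ∪ nbhd G {v}) W)
  let C₀ : Finset (Finset V) := B₂.filter (fun b => Disjoint b W)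
  let s₂ : {v // v ∈ J₀} ⊕ ({b // b ∈ C₀} ⊕ {a // a ∈ A \ W}) → Finset V :=
    Sum.elim (fun v => ({v.1} ∪ nbhd G {v.1}) \ L) (Sum.elim (fun b => b.1 \ L) (fun a => {a.1}))
  let r₂ : {v // v ∈ J₀} ⊕ ({b // b ∈ C₀} ⊕ {a // a ∈ A \ W}) → Finset V :=
    Sum.elim (fun v => ({v.1} ∪ nbhd G {v.1})) (Sum.elim (fun b => b.1) (fun a => {a.1}))
  let h₂ : {v // v ∈ J₀} ⊕ ({b // b ∈ C₀} ⊕ {a // a ∈ A \ W}) → Finset (V ⊕ V) :=
    Sum.elim (fun v => (nbhd G {v.1}).disjSum ({v.1} ∩ L))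
      (Sum.elim (fun b => (∅ : Finset V).disjSum (b.1 ∩ L))
        (fun a => (∅ : Finset V).disjSum (I.filter (fun l => e₁ l = a.1 ∨ e₂ l = a.1))))
  have P₂ : ∀ X : Finset ({v // v ∈ J₀} ⊕ ({b // b ∈ C₀} ⊕ {a // a ∈ A \ W})),
      5 * X.card ≤ 1 * (X.biUnion s₂).card + 5 * (X.biUnion h₂).card := by
    intro X
    set J : Finset V := X.toLeft.map (Function.Embedding.subtype _) with hJ
    set C : Finset (Finset V) := X.toRight.toLeft.map (Function.Embedding.subtype _) with hC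
    set Z : Finset V := X.toRight.toRight.map (Function.Embedding.subtype _) with hZ
    have hX : X.card = J.card + (C.card + Z.card) := by
      rw [hJ, hC, hZ, Finset.card_map, Finset.card_map, Finset.card_map,
        Finset.card_toLeft_add_card_toRight, Finset.card_toLeft_add_card_toRight]
    have mJ : ∀ v, v ∈ J → ∃ h : v ∈ J₀, Sum.inl ⟨v, h⟩ ∈ X := by
      intro v hv
      obtain ⟨w, hw, rfl⟩ := Finset.mem_map.1 hv
      exact ⟨w.2, Finset.mem_toLeft.1 hw⟩
    have mC : ∀ b, b ∈ C → ∃ h : b ∈ C₀, Sum.inr (Sum.inl ⟨b, h⟩) ∈ X := by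
      intro v hv
      obtain ⟨w, hw, rfl⟩ := Finset.mem_map.1 hv
      exact ⟨w.2, Finset.mem_toRight.1 (Finset.mem_toLeft.1 hw)⟩
    have mZ : ∀ a, a ∈ Z → ∃ h : a ∈ A \ W, Sum.inr (Sum.inr ⟨a, h⟩) ∈ X := by
      intro v hv
      obtain ⟨w, hw, rfl⟩ := Finset.mem_map.1 hv
      exact ⟨w.2, Finset.mem_toRight.1 (Finset.mem_toRight.1 hw)⟩
    have hJI : J ⊆ I₂ := fun v hv => (mem_filter.1 (mJ v hv).1).1
    have hJd : Disjoint J (nbhd G J) := hI₂.mono hJI (nbhd_mono hJI)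
    have hCB : ∀ b ∈ C, b ∈ B₂ := fun b hb => (mem_filter.1 (mC b hb).1).1
    set U := C.biUnion id with hU
    set Y := Z.biUnion (fun a => I.filter (fun l => e₁ l = a ∨ e₂ l = a)) with hY
    have c0 := hG J hJd
    have c5 : 2 * Z.card ≤ 2 * (Y \ L).card + (Y ∩ L).card := by
      refine two_mul_hubs_le I L Z e₁ e₂ (fun a ha => hdeg a (mem_sdiff.1 (mZ a ha).1).1) ?_
      rintro l hl ⟨h1, h2⟩
      rcases (hL l (hLI hl)).1 hl with h | h
      · exact (mem_sdiff.1 (mZ _ h1).1).2 h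
      · exact (mem_sdiff.1 (mZ _ h2).1).2 h
    have c4 : 5 * C.card ≤ U.card := by
      rw [hU, Finset.card_biUnion]
      · have : ∑ b ∈ C, 5 ≤ ∑ b ∈ C, (id b).card :=
          Finset.sum_le_sum (fun b hb => (hB₂ b (hCB b hb)).2)
        simpa [mul_comm] using this
      · intro b hb c hc hbc
        exact hB₂' b (hCB b hb) c (hCB c hc) hbc
    have dU : Disjoint J U := by
      rw [Finset.disjoint_right]
      intro v hv
      obtain ⟨b, hb, hvb⟩ := mem_biUnion.1 hv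
      intro hv'
      exact Finset.disjoint_left.1 (hB₂ b (hCB b hb)).1 hvb (mem_union_left _ (hJI hv'))
    have c1 : (J \ L).card + (U \ L).card ≤ (X.biUnion s₂).card := by
      rw [← Finset.card_union_of_disjoint (dU.mono sdiff_subset sdiff_subset)]
      refine Finset.card_le_card ?_
      intro v hv
      rcases mem_union.1 hv with hv | hv
      · obtain ⟨hvJ, hvL⟩ := mem_sdiff.1 hv
        obtain ⟨h, hx⟩ := mJ v hvJ
        exact mem_biUnion.2 ⟨_, hx, mem_sdiff.2 ⟨mem_union_left _ (mem_singleton_self _), hvL⟩⟩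
      · obtain ⟨hvJ, hvL⟩ := mem_sdiff.1 hv
        obtain ⟨b, hb, hvb⟩ := mem_biUnion.1 hvJ
        obtain ⟨h, hx⟩ := mC b hb
        exact mem_biUnion.2 ⟨_, hx, mem_sdiff.2 ⟨hvb, hvL⟩⟩
    set M := ((J ∩ L) ∪ (U ∩ L)) ∪ Y with hM
    have c2 : (nbhd G J).card + M.card ≤ (X.biUnion h₂).card := by
      rw [← Finset.card_disjSum]
      refine Finset.card_le_card ?_
      intro x hx
      rcases x with a | l
      · have ha : a ∈ nbhd G J := by simpa using hx
        obtain ⟨u, hu, hua⟩ := mem_nbhd.1 ha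
        obtain ⟨h, hx⟩ := mJ u hu
        refine mem_biUnion.2 ⟨_, hx, ?_⟩
        show Sum.inl a ∈ (nbhd G {u}).disjSum ({u} ∩ L)
        rw [Finset.inl_mem_disjSum]
        exact mem_nbhd.2 ⟨u, mem_singleton_self _, hua⟩
      · have hl : l ∈ M := by simpa using hx
        rcases mem_union.1 hl with hl | hl
        · rcases mem_union.1 hl with hl | hl
          · obtain ⟨h1, h2⟩ := mem_inter.1 hl
            obtain ⟨h, hx⟩ := mJ l h1
            refine mem_biUnion.2 ⟨_, hx, ?_⟩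
            show Sum.inr l ∈ (nbhd G {l}).disjSum ({l} ∩ L)
            rw [Finset.inr_mem_disjSum]
            exact mem_inter.2 ⟨mem_singleton_self _, h2⟩
          · obtain ⟨h1, h2⟩ := mem_inter.1 hl
            obtain ⟨b, hb, hlb⟩ := mem_biUnion.1 h1
            obtain ⟨h, hx⟩ := mC b hb
            refine mem_biUnion.2 ⟨_, hx, ?_⟩
            show Sum.inr l ∈ (∅ : Finset V).disjSum (b ∩ L)
            rw [Finset.inr_mem_disjSum]
            exact mem_inter.2 ⟨hlb, h2⟩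
        · obtain ⟨a, ha, hla⟩ := mem_biUnion.1 hl
          obtain ⟨h, hx⟩ := mZ a ha
          refine mem_biUnion.2 ⟨_, hx, ?_⟩
          show Sum.inr l ∈ (∅ : Finset V).disjSum (I.filter (fun l => e₁ l = a ∨ e₂ l = a))
          rw [Finset.inr_mem_disjSum]
          exact hla
    have k1 : (J \ L).card + (J ∩ L).card = J.card := Finset.card_sdiff_add_card_inter J L
    have k2 : (U \ L).card + (U ∩ L).card = U.card := Finset.card_sdiff_add_card_inter U L
    have k3 : (M \ L).card + (M ∩ L).card = M.card := Finset.card_sdiff_add_card_inter M L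
    have k4 : (Y \ L).card ≤ (M \ L).card :=
      Finset.card_le_card (Finset.sdiff_subset_sdiff subset_union_right subset_rfl)
    have k5 : (Y ∩ L).card ≤ (M ∩ L).card :=
      Finset.card_le_card (Finset.inter_subset_inter subset_union_right subset_rfl)
    have k6 : (J ∩ L).card + (U ∩ L).card ≤ (M ∩ L).card := by
      rw [← Finset.card_union_of_disjoint (dU.mono inter_subset_left inter_subset_left)]
      refine Finset.card_le_card ?_
      intro v hv
      refine mem_inter.2 ⟨mem_union_left _ hv, ?_⟩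
      rcases mem_union.1 hv with h | h
      · exact (mem_inter.1 h).2
      · exact (mem_inter.1 h).2
    omega
  -- the set `D`
  have ne₁ : ∀ t, (s₁ t).Nonempty := by
    rintro (v | b)
    · exact ⟨v.1, by simp [s₁]⟩
    · have := (hB₁ b.1 b.2).2
      exact Finset.card_pos.1 (by show 0 < b.1.card; omega)
  have ne₂ : ∀ t, (r₂ t).Nonempty := by
    rintro (v | b | a)
    · exact ⟨v.1, mem_union_left _ (mem_singleton_self _)⟩
    · have := (hB₂ b.1 (mem_filter.1 b.2).1).2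
      exact Finset.card_pos.1 (by show 0 < b.1.card; omega)
    · exact ⟨a.1, mem_singleton_self _⟩
  have memU : ∀ v, v ∈ (W ∪ L)ᶜ ↔ v ∉ W ∧ v ∉ L := by
    intro v; simp
  obtain ⟨D, hD, ⟨g₁, a₁, b₁⟩, ⟨g₂, a₂, b₂⟩⟩ := exists_drop_general 1 5 (by norm_num) (by norm_num)
    s₁ h₁ s₂ h₂ P₁ P₂ (W ∪ L)ᶜ (by
      rintro (v | b) x hx
      · have hvL : v.1 ∉ L := (mem_sdiff.1 ((Finset.ext_iff.1 hK v.1).1 v.2)).2
        have hvI : v.1 ∈ I := hKI v.2
        have hlL := hvL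
        rw [hL v.1 hvI] at hlL
        push Not at hlL
        have hx' : x = v.1 ∨ x = e₁ v.1 ∨ x = e₂ v.1 := by simpa [s₁] using hx
        rw [memU]
        rcases hx' with rfl | rfl | rfl
        · exact ⟨fun h => Finset.disjoint_left.1 hIA hvI (hWA h), hvL⟩
        · exact ⟨hlL.1, fun h => Finset.disjoint_left.1 hIA (hLI h) (he v.1 hvI).1⟩
        · exact ⟨hlL.2, fun h => Finset.disjoint_left.1 hIA (hLI h) (he v.1 hvI).2.1⟩
      · have hxb : x ∈ b.1 := hx
        rw [memU]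
        have := Finset.disjoint_left.1 (hB₁ b.1 b.2).1 hxb
        rw [mem_union] at this
        exact ⟨fun h => this (Or.inr (hWA h)), fun h => this (Or.inl (hLI h))⟩)
    (by
      rintro (v | b | a) x hx
      · have hx' : x ∈ ({v.1} ∪ nbhd G {v.1}) \ L := hx
        rw [mem_sdiff] at hx'
        rw [memU]
        exact ⟨fun h => Finset.disjoint_left.1 (mem_filter.1 v.2).2 hx'.1 h, hx'.2⟩
      · have hx' : x ∈ b.1 \ L := hx
        rw [mem_sdiff] at hx'
        rw [memU]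
        exact ⟨fun h => Finset.disjoint_left.1 (mem_filter.1 b.2).2 hx'.1 h, hx'.2⟩
      · have hx' : x = a.1 := by simpa [s₂] using hx
        rw [memU, hx']
        have := mem_sdiff.1 a.2
        exact ⟨this.2, fun h => Finset.disjoint_left.1 hIA (hLI h) this.1⟩)
    s₁ r₂ (fun _ => subset_rfl) (by
      rintro (v | b | a)
      · exact sdiff_subset
      · exact sdiff_subset
      · exact subset_rfl) ne₁ ne₂
  -- properties
  have q₁ : ∀ t, Disjoint (s₁ t) D → ∃ a ∈ h₁ t, ∃ t' : {t // Disjoint (s₁ t) D}, t'.1 = t ∧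
      g₁ t' = a := fun t ht => ⟨_, a₁ ⟨t, ht⟩, ⟨t, ht⟩, rfl, rfl⟩
  have q₂ : ∀ t, Disjoint (r₂ t) D → ∃ a ∈ h₂ t, ∃ t' : {t // Disjoint (r₂ t) D}, t'.1 = t ∧
      g₂ t' = a := fun t ht => ⟨_, a₂ ⟨t, ht⟩, ⟨t, ht⟩, rfl, rfl⟩
  refine ⟨D, ?_, ?_, ?_, ?_⟩
  · have h1 : (W ∪ L).card = W.card + L.card := Finset.card_union_of_disjoint hWL
    have h2 : (W ∪ L)ᶜ.card = Fintype.card V - (W ∪ L).card := Finset.card_compl _
    have h3 : (W ∪ L).card ≤ Fintype.card V := Finset.card_le_univ _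
    have h4 := Finset.card_union_le D W
    omega
  · intro b hb
    by_contra hne
    rw [Finset.not_nonempty_iff_eq_empty] at hne
    obtain ⟨a, ha, -⟩ := q₁ (Sum.inr ⟨b, hb⟩) (Finset.disjoint_iff_inter_eq_empty.2 hne)
    exact absurd ha (Finset.notMem_empty _)
  · have key : ∀ v, ∃ a, ∀ h : v ∈ K, v ∉ D → e₁ v ∉ D → e₂ v ∉ D →
        (a = e₁ v ∨ a = e₂ v) ∧ ∃ t' : {t // Disjoint (s₁ t) D}, t'.1 = Sum.inl ⟨v, h⟩ ∧
          g₁ t' = a := by
      intro v
      by_cases h : v ∈ K ∧ v ∉ D ∧ e₁ v ∉ D ∧ e₂ v ∉ D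
      · have hd : Disjoint (s₁ (Sum.inl ⟨v, h.1⟩)) D := by
          rw [Finset.disjoint_left]
          intro x hx
          have hx' : x = v ∨ x = e₁ v ∨ x = e₂ v := by simpa [s₁] using hx
          rcases hx' with rfl | rfl | rfl
          · exact h.2.1
          · exact h.2.2.1
          · exact h.2.2.2
        obtain ⟨a, ha, t', ht', hga⟩ := q₁ _ hd
        have ha' : a = e₁ v ∨ a = e₂ v := by simpa [h₁] using ha
        exact ⟨a, fun _ _ _ _ => ⟨ha', t', ht', hga⟩⟩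
      · exact ⟨v, fun h1 h2 h3 h4 => absurd ⟨h1, h2, h3, h4⟩ h⟩
    choose γ hγ using key
    refine ⟨γ, fun v h1 h2 h3 h4 => (hγ v h1 h2 h3 h4).1, ?_⟩
    rintro v ⟨h1, h2, h3, h4⟩ w ⟨k1, k2, k3, k4⟩ hvw
    obtain ⟨-, t, ht, hgt⟩ := hγ v h1 h2 h3 h4
    obtain ⟨-, t', ht', hgt'⟩ := hγ w k1 k2 k3 k4
    have : t = t' := b₁ (hgt.trans (hvw.trans hgt'.symm))
    rw [this, ht'] at ht
    have := Sum.inl_injective ht
    exact (congrArg Subtype.val this).symm
  · -- the leaves which are used by the second system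
    let P : Finset V := univ.filter (fun l => ∃ t : {t // Disjoint (r₂ t) D}, g₂ t = Sum.inr l ∧
      ((∃ v, t.1 = Sum.inl v) ∨ ∃ b, t.1 = Sum.inr (Sum.inl b)))
    have keyμ : ∀ a, ∃ l, ∀ h : a ∈ A \ W, a ∉ D → l ∈ I ∧ (e₁ l = a ∨ e₂ l = a) ∧
        ∃ t' : {t // Disjoint (r₂ t) D}, t'.1 = Sum.inr (Sum.inr ⟨a, h⟩) ∧ g₂ t' = Sum.inr l := by
      intro a
      by_cases h : a ∈ A \ W ∧ a ∉ D
      · have hd : Disjoint (r₂ (Sum.inr (Sum.inr ⟨a, h.1⟩))) D := by
          rw [Finset.disjoint_left]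
          intro x hx
          have hx' : x = a := by simpa [r₂] using hx
          rw [hx']
          exact h.2
        obtain ⟨x, hx, t', ht', hgx⟩ := q₂ _ hd
        rcases x with x | l
        · exfalso
          have : Sum.inl x ∈ (∅ : Finset V).disjSum (I.filter (fun l => e₁ l = a ∨ e₂ l = a)) := hx
          rw [Finset.inl_mem_disjSum] at this
          exact absurd this (Finset.notMem_empty _)
        · have : Sum.inr l ∈ (∅ : Finset V).disjSum (I.filter (fun l => e₁ l = a ∨ e₂ l = a)) := hx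
          rw [Finset.inr_mem_disjSum, mem_filter] at this
          exact ⟨l, fun _ _ => ⟨this.1, this.2, t', ht', hgx⟩⟩
      · exact ⟨a, fun h1 h2 => absurd ⟨h1, h2⟩ h⟩
    choose μ hμ using keyμ
    have keyγ : ∀ v, ∃ x : V ⊕ V, ∀ h : v ∈ J₀, Disjoint ({v} ∪ nbhd G {v}) D →
        x ∈ (nbhd G {v}).disjSum ({v} ∩ L) ∧
        ∃ t' : {t // Disjoint (r₂ t) D}, t'.1 = Sum.inl ⟨v, h⟩ ∧ g₂ t' = x := by
      intro v
      by_cases h : v ∈ J₀ ∧ Disjoint ({v} ∪ nbhd G {v}) D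
      · obtain ⟨x, hx, t', ht', hgx⟩ := q₂ (Sum.inl ⟨v, h.1⟩) h.2
        exact ⟨x, fun _ _ => ⟨hx, t', ht', hgx⟩⟩
      · exact ⟨Sum.inl v, fun h1 h2 => absurd ⟨h1, h2⟩ h⟩
    choose x hx using keyγ
    let Q : Finset V := J₀.filter (fun v => Disjoint ({v} ∪ nbhd G {v}) D ∧ ∃ a, x v = Sum.inl a)
    let γ : V → V := fun v => Sum.elim id id (x v)
    refine ⟨P, Q, γ, μ, ?_, ?_, ?_, ?_, ?_, ?_, ?_, ?_⟩
    · intro l hl
      obtain ⟨t, ht, hc⟩ := (mem_filter.1 hl).2
      rcases hc with ⟨v, hv⟩ | ⟨b, hb⟩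
      · have h1 := a₂ t
        rw [ht, hv] at h1
        have h2 : Sum.inr l ∈ (nbhd G {v.1}).disjSum ({v.1} ∩ L) := h1
        rw [Finset.inr_mem_disjSum] at h2
        exact (mem_inter.1 h2).2
      · have h1 := a₂ t
        rw [ht, hb] at h1
        have h2 : Sum.inr l ∈ (∅ : Finset V).disjSum (b.1 ∩ L) := h1
        rw [Finset.inr_mem_disjSum] at h2
        exact (mem_inter.1 h2).2
    · intro a haA haW haD
      obtain ⟨h1, h2, t', ht', hg⟩ := hμ a (mem_sdiff.2 ⟨haA, haW⟩) haD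
      refine ⟨h1, h2, ?_⟩
      intro hP
      obtain ⟨t, ht, hc⟩ := (mem_filter.1 hP).2
      have : t = t' := b₂ (ht.trans hg.symm)
      rw [this, ht'] at hc
      rcases hc with ⟨v, hv⟩ | ⟨b, hb⟩
      · exact absurd hv (by simp)
      · exact absurd hb (by simp)
    · rintro a ⟨h1, h2, h3⟩ b ⟨k1, k2, k3⟩ hab
      obtain ⟨-, -, t, ht, hg⟩ := hμ a (mem_sdiff.2 ⟨h1, h2⟩) h3
      obtain ⟨-, -, t', ht', hg'⟩ := hμ b (mem_sdiff.2 ⟨k1, k2⟩) k3
      have : t = t' := b₂ (hg.trans ((congrArg Sum.inr hab).trans hg'.symm))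
      rw [this, ht'] at ht
      have := Sum.inr_injective (Sum.inr_injective ht)
      exact (congrArg Subtype.val this).symm
    · intro v hv
      exact (mem_filter.1 (mem_filter.1 hv).1).1
    · intro v hv
      obtain ⟨hv1, hv2, a, ha⟩ := mem_filter.1 hv
      have h1 := (hx v hv1 hv2).1
      rw [ha, Finset.inl_mem_disjSum] at h1
      obtain ⟨u, hu, huv⟩ := mem_nbhd.1 h1
      rw [mem_singleton] at hu
      subst hu
      simp only [γ, ha, Sum.elim_inl, id]
      exact huv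
    · intro v hv w hw hvw
      obtain ⟨hv1, hv2, a, ha⟩ := mem_filter.1 (Finset.mem_coe.1 hv)
      obtain ⟨hw1, hw2, b, hb⟩ := mem_filter.1 (Finset.mem_coe.1 hw)
      simp only [γ, ha, hb, Sum.elim_inl, id] at hvw
      obtain ⟨-, t, ht, hg⟩ := hx v hv1 hv2
      obtain ⟨-, t', ht', hg'⟩ := hx w hw1 hw2
      have : t = t' := b₂ (by rw [hg, hg', ha, hb, hvw])
      rw [this, ht'] at ht
      have := Sum.inl_injective ht
      exact (congrArg Subtype.val this).symm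
    · intro v hvI hvQ
      by_cases hvJ : v ∈ J₀
      · by_cases hvD : Disjoint ({v} ∪ nbhd G {v}) D
        · left
          obtain ⟨h1, t, ht, hg⟩ := hx v hvJ hvD
          rcases hxv : x v with a | l
          · exact absurd (mem_filter.2 ⟨hvJ, hvD, a, hxv⟩) hvQ
          · rw [hxv, Finset.inr_mem_disjSum, mem_inter, mem_singleton] at h1
            rw [hxv, h1.1] at hg
            exact mem_filter.2 ⟨mem_univ _, t, hg, Or.inl ⟨_, ht⟩⟩
        · obtain ⟨y, hy1, hy2⟩ := Finset.not_disjoint_iff.1 hvD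
          rcases mem_union.1 hy1 with hy | hy
          · rw [mem_singleton] at hy
            subst hy
            exact Or.inr (Or.inl (mem_union_left _ hy2))
          · obtain ⟨u, hu, huy⟩ := mem_nbhd.1 hy
            rw [mem_singleton] at hu
            subst hu
            exact Or.inr (Or.inr ⟨y, mem_union_left _ hy2, huy⟩)
      · have hvW : ¬ Disjoint ({v} ∪ nbhd G {v}) W := fun h => hvJ (mem_filter.2 ⟨hvI, h⟩)
        obtain ⟨y, hy1, hy2⟩ := Finset.not_disjoint_iff.1 hvW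
        rcases mem_union.1 hy1 with hy | hy
        · rw [mem_singleton] at hy
          subst hy
          exact Or.inr (Or.inl (mem_union_right _ hy2))
        · obtain ⟨u, hu, huy⟩ := mem_nbhd.1 hy
          rw [mem_singleton] at hu
          subst hu
          exact Or.inr (Or.inr ⟨y, mem_union_right _ hy2, huy⟩)
    · intro b hb
      by_cases hbW : Disjoint b W
      · by_cases hbD : Disjoint b D
        · obtain ⟨y, hy, t, ht, hg⟩ := q₂ (Sum.inr (Sum.inl ⟨b, mem_filter.2 ⟨hb, hbW⟩⟩)) hbD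
          rcases y with y | l
          · exfalso
            have : Sum.inl y ∈ (∅ : Finset V).disjSum (b ∩ L) := hy
            rw [Finset.inl_mem_disjSum] at this
            exact absurd this (Finset.notMem_empty _)
          · have : Sum.inr l ∈ (∅ : Finset V).disjSum (b ∩ L) := hy
            rw [Finset.inr_mem_disjSum, mem_inter] at this
            refine ⟨l, mem_inter.2 ⟨this.1, mem_union_right _ ?_⟩⟩
            exact mem_filter.2 ⟨mem_univ _, t, hg, Or.inr ⟨_, ht⟩⟩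
        · obtain ⟨y, hy1, hy2⟩ := Finset.not_disjoint_iff.1 hbD
          exact ⟨y, mem_inter.2 ⟨hy1, mem_union_left _ (mem_union_left _ hy2)⟩⟩
      · obtain ⟨y, hy1, hy2⟩ := Finset.not_disjoint_iff.1 hbW
        exact ⟨y, mem_inter.2 ⟨hy1, mem_union_left _ (mem_union_right _ hy2)⟩⟩

end Pool.Agent.Y526.Dom
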